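import Pool.Agent.N917.K4.Stm2

/-!
Project K4 (helper917), assembly.
-/

namespace Pool.Agent.N917.K4

open Finset
open Pool.Agent.Results.MP_76b19e_co.ForcedCliques

theorem pure_of (hSUM : S_SUM) (hMOVE : S_MOVE) (hCNT : S_CNT) (hMAX : S_MAX)
    (hLOCG : S_LOCG) : S_PURE := by
  intro V _ G _ q X Y hq hXY hX hY hnn
  rcases Nat.lt_or_ge q 2 with h2 | h2
  · obtain rfl : q = 1 := by omega
    have hadj : ∀ x ∈ X, ∀ w ∈ X ∪ Y, w ≠ x → G.Adj x w := by
      intro x hx w hw hwx
      by_contra hna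
      have h1 : ({x, w} : Finset V) ⊆ (X ∪ Y).filter (fun w => ¬ G.Adj x w) := by
        intro z hz
        simp only [Finset.mem_insert, Finset.mem_singleton] at hz
        rcases hz with rfl | rfl
        · simp [Finset.mem_union.2 (Or.inl hx)]
        · simp only [Finset.mem_filter]; exact ⟨hw, hna⟩
      have h3 := Finset.card_le_card h1
      rw [Finset.card_pair (Ne.symm hwx)] at h3
      have h4 := hnn x hx
      unfold nn at h4
      omega
    have hcard : (X ∪ Y).card = 4 := by
      rw [Finset.card_union_of_disjoint hXY, hX, hY]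
    have hmem : (X ∪ Y) ∈ cl G (X ∪ Y) 4 := by
      rw [mem_cl]
      refine ⟨Finset.Subset.refl _, ?_, hcard⟩
      intro a ha b hb hab
      have ha' : a ∈ X ∪ Y := by exact_mod_cast ha
      have hb' : b ∈ X ∪ Y := by exact_mod_cast hb
      rcases Finset.mem_union.1 ha' with h | h
      · exact hadj a h b hb' (Ne.symm hab)
      · rcases Finset.mem_union.1 hb' with h' | h'
        · exact (hadj b h' a ha' hab).symm
        · exfalso
          obtain ⟨y, hy⟩ := Finset.card_eq_one.1 hY
          rw [hy, Finset.mem_singleton] at h h'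
          exact hab (h.trans h'.symm)
    have := Finset.card_pos.2 ⟨_, hmem⟩
    simpa using this
  · have hnnX : ∀ x ∈ X, nn G X x ≤ q := fun x hx =>
      (nn_mono G Finset.subset_union_left x).trans (hnn x hx)
    have hsum := hSUM V G q X hX hnnX
    set F : Finset V → ℝ := fun S => tw G q X S - (cnb G Y S).card with hF
    have h1 : ∑ S ∈ cl G X 3, F S = (q : ℝ) ^ 2 - ∑ S ∈ cl G X 3, ((cnb G Y S).card : ℝ) := by
      rw [hF, Finset.sum_sub_distrib, hsum]
    have h2' : ∑ S ∈ cl G X 3, F S =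
        ∑ S ∈ (cl G X 3).filter (fun S => (cnb G X S).card ≠ 0), F S +
        ∑ S ∈ (cl G X 3).filter (fun S => ¬ (cnb G X S).card ≠ 0), F S :=
      (Finset.sum_filter_add_sum_filter_not _ _ _).symm
    have h3 : ∑ S ∈ (cl G X 3).filter (fun S => ¬ (cnb G X S).card ≠ 0), F S ≤ 0 := by
      apply Finset.sum_nonpos
      intro S hS
      rw [Finset.mem_filter, not_not] at hS
      have := hMAX V G q X Y hXY hX hY hnn S hS.1 hS.2
      rw [hF]
      simp only
      linarith
    have h4 : ∑ S ∈ (cl G X 3).filter (fun S => (cnb G X S).card ≠ 0), F S ≤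
        ((cl G X 4).card : ℝ) := by
      rw [hMOVE V G X F]
      calc ∑ K ∈ cl G X 4, ∑ x ∈ K, F (K.erase x) / (cnb G X (K.erase x)).card
          ≤ ∑ K ∈ cl G X 4, (1 : ℝ) :=
            Finset.sum_le_sum (fun K hK => hLOCG V G q X Y h2 hXY hX hY hnn K hK)
        _ = ((cl G X 4).card : ℝ) := by simp
    have h5 := hCNT V G X Y hXY
    have h6 : (∑ S ∈ cl G X 3, ((cnb G Y S).card : ℝ)) + ((cl G X 4).card : ℝ) ≤
        ((cl G (X ∪ Y) 4).card : ℝ) := by exact_mod_cast h5
    have h7 : ((q ^ 2 : ℕ) : ℝ) ≤ ((cl G (X ∪ Y) 4).card : ℝ) := by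
      push_cast
      linarith
    exact_mod_cast h7

theorem lower3 (hP : S_PURE) {n k : ℕ} (hdom : n = 3 * (n - k) + 1)
    {G : SimpleGraph (Fin n)} (h : Admissible n k 3 G) :
    (n - k) ^ 2 ≤ cliqueCount G 4 := by
  classical
  obtain ⟨q, hq, hq0⟩ := exists_seq G (by norm_num) h
  obtain ⟨hk, _⟩ := dom_of_admissible (by norm_num) h
  have hW := hq.hW
  have hX := hq.hX 2 (by norm_num)
  have hm0 := hq.hm 0 (by norm_num)
  have hm1 := hq.hm 1 (by norm_num)
  rw [Finset.card_univ, Fintype.card_fin] at hW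
  simp only [Finset.sum_range_succ, Finset.sum_range_zero, zero_add] at hW hX hm0 hm1
  norm_num at hm0 hm1
  have e1 : q 1 = n - k := by omega
  have e2 : q 2 = n - k := by omega
  rw [hq0, e1, e2] at hX
  obtain ⟨X, hXs, hXc⟩ := Finset.exists_subset_card_eq (s := (univ : Finset (Fin n)).filter
    (fun v => nn G univ v ≤ n - k)) (n := 2 * (n - k) + 1) (by omega)
  have hYc : (univ \ X : Finset (Fin n)).card = n - k := by
    rw [Finset.card_sdiff_of_subset (Finset.subset_univ _), Finset.card_univ, Fintype.card_fin,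
      hXc]
    omega
  have hU : X ∪ (univ \ X) = univ := by simp
  have := hP (Fin n) G (n - k) X (univ \ X) (by omega) Finset.disjoint_sdiff hXc hYc (by
    intro x hx
    rw [hU]
    exact (Finset.mem_filter.1 (hXs hx)).2)
  rw [hU] at this
  rw [cliqueCount_eq]
  exact this

/-- the final statement from the pure case -/
theorem final_of (hP : S_PURE) : ∀ n k : ℕ,
    ((∃ G : SimpleGraph (Fin n), Admissible n k 3 G) ↔ (k < n ∧ 3 * (n - k) + 1 ≤ n)) ∧
    (k < n → 3 * (n - k) + 1 ≤ n → ∀ s : ℕ, s ≤ 2 →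
      s * (s + 1) ≤ 2 * (n - 1 - 3 * (n - k)) →
      (s = 2 ∨ 2 * (n - 1 - 3 * (n - k)) < (s + 1) * (s + 2)) →
      minCliques n k 3 = (n - k) ^ (2 - s)) := by
  intro n k
  have hres := Pool.Agent.Results.MP_76b19e_co.ForcedCliques.result n k 3 (by norm_num)
  refine ⟨hres.1, ?_⟩
  intro hk hdom s hs hs1 hs2
  have h3 := hres.2 hk hdom s (by omega) hs1 (by simpa using hs2)
  rcases Nat.eq_zero_or_pos s with h0 | h0
  · subst h0
    have ht : n = 3 * (n - k) + 1 := by
      rcases hs2 with h | h <;> omega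
    apply le_antisymm
    · simpa using h3.1
    · have hne : {N | ∃ G : SimpleGraph (Fin n), Admissible n k 3 G ∧
          cliqueCount G (3 + 1) = N}.Nonempty := by
        obtain ⟨G, hG⟩ := hres.1.2 ⟨hk, hdom⟩
        exact ⟨_, G, hG, rfl⟩
      have hmem := Nat.sInf_mem hne
      obtain ⟨G, hG, hGc⟩ := hmem
      have h5 := lower3 hP ht hG
      unfold minCliques
      rw [← hGc]
      simpa using h5
  · have := h3.2.2 (by omega)
    simpa using this

end Pool.Agent.N917.K4
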