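import Pool.Agent.N917.K4.Stm2

/-!
Project K4, part CNT: counting cliques with at most one vertex in `Y`.
-/

namespace Pool.Agent.N917.K4

open Finset
open Pool.Agent.Results.MP_76b19e_co.ForcedCliques (nn cnb cl mem_cl mem_cnb)

theorem t_CNT : S_CNT := by
  intro V _ G _ X Y hXY
  classical
  have hdis : Disjoint (((cl G X 3).sigma (fun S => cnb G Y S)).image
      (fun p : (_ : Finset V) × V => insert p.2 p.1)) (cl G X 4) := by
    rw [Finset.disjoint_left]
    intro K hK hK4
    rw [mem_image] at hK
    obtain ⟨p, hp, rfl⟩ := hK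
    rw [mem_sigma] at hp
    have hy : p.2 ∈ Y := ((mem_cnb G).1 hp.2).1
    have hx : p.2 ∈ X := ((mem_cl G).1 hK4).1 (mem_insert_self _ _)
    exact (Finset.disjoint_left.1 hXY) hx hy
  have hinj : Set.InjOn (fun p : (_ : Finset V) × V => insert p.2 p.1)
      (((cl G X 3).sigma (fun S => cnb G Y S)) : Set ((_ : Finset V) × V)) := by
    rintro ⟨S, y⟩ hp ⟨S', y'⟩ hp' heq
    rw [mem_coe, mem_sigma] at hp hp'
    simp only at heq hp hp'
    have hS : S ⊆ X := ((mem_cl G).1 hp.1).1
    have hS' : S' ⊆ X := ((mem_cl G).1 hp'.1).1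
    have hy : y ∈ Y := ((mem_cnb G).1 hp.2).1
    have hy' : y' ∈ Y := ((mem_cnb G).1 hp'.2).1
    have hd : ∀ z, z ∈ X → z ∈ Y → False := fun z h1 h2 => (Finset.disjoint_left.1 hXY) h1 h2
    have e1 : S = S' := by
      ext z
      constructor
      · intro hz
        have : z ∈ insert y' S' := heq ▸ mem_insert_of_mem hz
        rcases mem_insert.1 this with h | h
        · exact absurd (h ▸ hy') (fun hh => hd z (hS hz) hh)
        · exact h
      · intro hz
        have : z ∈ insert y S := heq.symm ▸ mem_insert_of_mem hz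
        rcases mem_insert.1 this with h | h
        · exact absurd (h ▸ hy) (fun hh => hd z (hS' hz) hh)
        · exact h
    subst e1
    have : y ∈ insert y' S := heq ▸ mem_insert_self _ _
    rcases mem_insert.1 this with h | h
    · rw [h]
    · exact absurd hy (fun hh => hd y (hS h) hh)
  have hsub : ((cl G X 3).sigma (fun S => cnb G Y S)).image
      (fun p : (_ : Finset V) × V => insert p.2 p.1) ∪ cl G X 4 ⊆ cl G (X ∪ Y) 4 := by
    intro K hK
    rw [mem_union] at hK
    rcases hK with hK | hK
    · rw [mem_image] at hK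
      obtain ⟨⟨S, y⟩, hp, rfl⟩ := hK
      rw [mem_sigma] at hp
      simp only at hp
      have hS := (mem_cl G).1 hp.1
      have hy := (mem_cnb G).1 hp.2
      rw [mem_cl]
      refine ⟨?_, ?_⟩
      · intro z hz
        rcases mem_insert.1 hz with h | h
        · exact mem_union_right _ (by rw [h]; exact hy.1)
        · exact mem_union_left _ (hS.1 h)
      · exact hS.2.insert (fun b hb => (hy.2 b hb).symm)
    · rw [mem_cl] at hK ⊢
      exact ⟨hK.1.trans subset_union_left, hK.2⟩
  calc ∑ S ∈ cl G X 3, (cnb G Y S).card + (cl G X 4).card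
      = (((cl G X 3).sigma (fun S => cnb G Y S)).image
          (fun p : (_ : Finset V) × V => insert p.2 p.1)).card + (cl G X 4).card := by
        rw [card_image_of_injOn hinj, card_sigma]
    _ = (((cl G X 3).sigma (fun S => cnb G Y S)).image
          (fun p : (_ : Finset V) × V => insert p.2 p.1) ∪ cl G X 4).card := by
        rw [card_union_of_disjoint hdis]
    _ ≤ (cl G (X ∪ Y) 4).card := card_le_card hsub

end Pool.Agent.N917.K4
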