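import Pool.Agent.N917.K4.Stm

/-!
Project K4, part F: the real inequalities for the weight of a triangle.
-/

namespace Pool.Agent.N917.K4

namespace F

/-- two pairs with the same sum: the pair with the larger product has the smaller sum of
reciprocals -/
lemma pair {u v u' v' : ℝ} (hu : 0 < u) (hv : 0 < v) (hu' : 0 < u') (hv' : 0 < v')
    (hs : u + v = u' + v') (hp : u' * v' ≤ u * v) : 1 / u + 1 / v ≤ 1 / u' + 1 / v' := by
  have e1 : 1 / u + 1 / v = (u + v) / (u * v) := by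
    field_simp
    ring
  have e2 : 1 / u' + 1 / v' = (u + v) / (u' * v') := by
    rw [hs]
    field_simp
    ring
  rw [e1, e2]
  exact div_le_div_of_nonneg_left (by positivity) (by positivity) hp

lemma conv {p x y : ℝ} (hp : 0 < p) (hx : 0 ≤ x) (hy : 0 ≤ y) :
    1 / (p + x) + 1 / (p + y) ≤ 1 / p + 1 / (p + (x + y)) := by
  apply pair (by positivity) (by positivity) hp (by positivity)
  · ring
  · nlinarith [mul_nonneg hx hy]

lemma bracket (q a b c : ℝ) (hq : 0 ≤ q) (ha : 0 ≤ a) (hb : 0 ≤ b) (hc : 0 ≤ c) :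
    ((1 / (q + 1 + a) + 1 / (q + 1 + b)) / (1 + a + b)
    + (1 / (q + 1 + a) + 1 / (q + 1 + c)) / (1 + a + c)
    + (1 / (q + 1 + b) + 1 / (q + 1 + c)) / (1 + b + c))
    = (1 / (1 + b + c) + 1 / (1 + a + c) + 1 / (1 + a + b)) *
        (1 / (q + 1 + a) + 1 / (q + 1 + b) + 1 / (q + 1 + c))
      - ((1 / (1 + b + c) + 1 / (1 + a + c) + 1 / (1 + a + b)) +
        (1 / (q + 1 + a) + 1 / (q + 1 + b) + 1 / (q + 1 + c))) / (q + (a + b + c) + 2) := by
  have ea : (1 / (1 + b + c)) * (1 / (q + 1 + a))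
      = (1 / (1 + b + c) + 1 / (q + 1 + a)) / (q + (a + b + c) + 2) := by
    have h1 : (1 + b + c) ≠ 0 := by positivity
    have h2 : (q + 1 + a) ≠ 0 := by positivity
    have h3 : (q + (a + b + c) + 2) ≠ 0 := by positivity
    field_simp
    ring
  have eb : (1 / (1 + a + c)) * (1 / (q + 1 + b))
      = (1 / (1 + a + c) + 1 / (q + 1 + b)) / (q + (a + b + c) + 2) := by
    have h1 : (1 + a + c) ≠ 0 := by positivity
    have h2 : (q + 1 + b) ≠ 0 := by positivity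
    have h3 : (q + (a + b + c) + 2) ≠ 0 := by positivity
    field_simp
    ring
  have ec : (1 / (1 + a + b)) * (1 / (q + 1 + c))
      = (1 / (1 + a + b) + 1 / (q + 1 + c)) / (q + (a + b + c) + 2) := by
    have h1 : (1 + a + b) ≠ 0 := by positivity
    have h2 : (q + 1 + c) ≠ 0 := by positivity
    have h3 : (q + (a + b + c) + 2) ≠ 0 := by positivity
    field_simp
    ring
  have key : ∀ Aa Ab Ac Ba Bb Bc K : ℝ, Aa * Ba = (Aa + Ba) / K → Ab * Bb = (Ab + Bb) / K →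
      Ac * Bc = (Ac + Bc) / K →
      (Ba + Bb) * Ac + (Ba + Bc) * Ab + (Bb + Bc) * Aa
        = (Aa + Ab + Ac) * (Ba + Bb + Bc) - ((Aa + Ab + Ac) + (Ba + Bb + Bc)) / K := by
    intro Aa Ab Ac Ba Bb Bc K h1 h2 h3
    have : ((Aa + Ab + Ac) + (Ba + Bb + Bc)) / K = Aa * Ba + Ab * Bb + Ac * Bc := by
      rw [h1, h2, h3]
      ring
    rw [this]
    ring
  have := key _ _ _ _ _ _ _ ea eb ec
  rw [← this]
  ring

lemma mono {K U V U' V' : ℝ} (hK : 0 < K) (hU : 1 / K ≤ U) (hV : 1 / K ≤ V) (hU' : U ≤ U')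
    (hV' : V ≤ V') : U * V - (U + V) / K ≤ U' * V' - (U' + V') / K := by
  have h1 : (U - 1 / K) * (V - 1 / K) ≤ (U' - 1 / K) * (V' - 1 / K) := by
    apply mul_le_mul (by linarith) (by linarith) (by linarith) (by linarith)
  have e1 : (U + V) / K = (U + V) * (1 / K) := by ring
  have e2 : (U' + V') / K = (U' + V') * (1 / K) := by ring
  rw [e1, e2]
  nlinarith

lemma bound (q a b c : ℕ) (U V : ℝ)
    (hU : 1 / (1 + (b : ℝ) + c) + 1 / (1 + (a : ℝ) + c) + 1 / (1 + (a : ℝ) + b) ≤ U)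
    (hV : 1 / ((q : ℝ) + 1 + a) + 1 / ((q : ℝ) + 1 + b) + 1 / ((q : ℝ) + 1 + c) ≤ V) :
    pi3 q a b c ≤ (q : ℝ) ^ 2 / (2 * q + 1) *
      (U * V - (U + V) / ((q : ℝ) + (a + b + c) + 2)) := by
  have hq : (0 : ℝ) ≤ q := Nat.cast_nonneg _
  have ha : (0 : ℝ) ≤ a := Nat.cast_nonneg _
  have hb : (0 : ℝ) ≤ b := Nat.cast_nonneg _
  have hc : (0 : ℝ) ≤ c := Nat.cast_nonneg _
  unfold pi3
  rw [bracket (q : ℝ) a b c hq ha hb hc]
  apply mul_le_mul_of_nonneg_left _ (by positivity)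
  apply mono (by positivity) _ _ hU hV
  · have h1 : 1 / ((q : ℝ) + (a + b + c) + 2) ≤ 1 / (1 + (b : ℝ) + c) :=
      one_div_le_one_div_of_le (by positivity) (by linarith)
    have h2 : 0 ≤ 1 / (1 + (a : ℝ) + c) := by positivity
    have h3 : 0 ≤ 1 / (1 + (a : ℝ) + b) := by positivity
    linarith
  · have h1 : 1 / ((q : ℝ) + (a + b + c) + 2) ≤ 1 / ((q : ℝ) + 1 + a) :=
      one_div_le_one_div_of_le (by positivity) (by linarith)
    have h2 : 0 ≤ 1 / ((q : ℝ) + 1 + b) := by positivity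
    have h3 : 0 ≤ 1 / ((q : ℝ) + 1 + c) := by positivity
    linarith

/-- the first one-parameter family of inequalities -/
lemma num1 (s m : ℝ) (hs : 0 ≤ s) (hm : 0 ≤ m) :
    (s + 1 + m) ^ 2 / (2 * (s + 1 + m) + 1) *
      ((1 + 2 / (1 + s)) * (1 / ((s + 1 + m) + 1 + s) + 2 / ((s + 1 + m) + 1))
        - ((1 + 2 / (1 + s)) + (1 / ((s + 1 + m) + 1 + s) + 2 / ((s + 1 + m) + 1))) /
          ((s + 1 + m) + s + 2)) ≤ (s + 1 + m) - s := by
  have h1 : (1 + 2 / (1 + s)) * (1 / ((s + 1 + m) + 1 + s) + 2 / ((s + 1 + m) + 1))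
        - ((1 + 2 / (1 + s)) + (1 / ((s + 1 + m) + 1 + s) + 2 / ((s + 1 + m) + 1))) /
          ((s + 1 + m) + s + 2)
      = 2 * ((2 * (s + 1 + m) + 2 + s) + (1 + s) * ((s + 1 + m) + 1 + s)) /
        ((1 + s) * ((s + 1 + m) + 1) * ((s + 1 + m) + 1 + s)) := by
    have e1 : (1 + s) ≠ 0 := by positivity
    have e2 : ((s + 1 + m) + 1) ≠ 0 := by positivity
    have e3 : ((s + 1 + m) + 1 + s) ≠ 0 := by positivity
    have e4 : ((s + 1 + m) + s + 2) ≠ 0 := by positivity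
    field_simp
    ring
  rw [h1, div_mul_div_comm, div_le_iff₀ (by positivity)]
  have : 0 ≤ ((s + 1 + m) - s) * ((2 * (s + 1 + m) + 1) *
        ((1 + s) * ((s + 1 + m) + 1) * ((s + 1 + m) + 1 + s)))
      - (s + 1 + m) ^ 2 * (2 * ((2 * (s + 1 + m) + 2 + s) + (1 + s) * ((s + 1 + m) + 1 + s))) := by
    ring_nf
    positivity
  linarith

lemma num2 (q : ℝ) (hq : 2 ≤ q) :
    q ^ 2 / (2 * q + 1) *
      ((1 / 2 + 1 / q + 1 / (q + 1)) * (1 / (2 * q) + 1 / (q + 2) + 1 / (q + 1))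
        - ((1 / 2 + 1 / q + 1 / (q + 1)) + (1 / (2 * q) + 1 / (q + 2) + 1 / (q + 1))) /
          (q + q + 2)) ≤ (q + 2) / (2 * (q + 1)) := by
  obtain ⟨m, rfl⟩ : ∃ m, q = m + 2 := ⟨q - 2, by ring⟩
  have hm : 0 ≤ m := by linarith
  have : 0 ≤ ((m + 2) + 2) / (2 * ((m + 2) + 1)) - (m + 2) ^ 2 / (2 * (m + 2) + 1) *
      ((1 / 2 + 1 / (m + 2) + 1 / ((m + 2) + 1)) *
        (1 / (2 * (m + 2)) + 1 / ((m + 2) + 2) + 1 / ((m + 2) + 1))
        - ((1 / 2 + 1 / (m + 2) + 1 / ((m + 2) + 1)) +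
          (1 / (2 * (m + 2)) + 1 / ((m + 2) + 2) + 1 / ((m + 2) + 1))) /
          ((m + 2) + (m + 2) + 2)) := by
    have e : ((m + 2) + 2) / (2 * ((m + 2) + 1)) - (m + 2) ^ 2 / (2 * (m + 2) + 1) *
      ((1 / 2 + 1 / (m + 2) + 1 / ((m + 2) + 1)) *
        (1 / (2 * (m + 2)) + 1 / ((m + 2) + 2) + 1 / ((m + 2) + 1))
        - ((1 / 2 + 1 / (m + 2) + 1 / ((m + 2) + 1)) +
          (1 / (2 * (m + 2)) + 1 / ((m + 2) + 2) + 1 / ((m + 2) + 1))) /
          ((m + 2) + (m + 2) + 2)) = (6912 + 16416 * m + 16128 * m ^ 2 + 8392 * m ^ 3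
            + 2440 * m ^ 4 + 376 * m ^ 5 + 24 * m ^ 6) /
          (2 * ((m + 2) + 1) * (2 * (m + 2) + 1) * (2 * (m + 2) * ((m + 2) + 1)) *
            (2 * (m + 2) * ((m + 2) + 2) * ((m + 2) + 1)) * (2 * (m + 2) + 2)) := by
      have e1 : (m + 2) ≠ 0 := by positivity
      have e2 : ((m + 2) + 1) ≠ 0 := by positivity
      have e3 : ((m + 2) + 2) ≠ 0 := by positivity
      have e4 : (2 * (m + 2) + 1) ≠ 0 := by positivity
      have e5 : ((m + 2) + (m + 2) + 2) ≠ 0 := by positivity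
      have e6 : (2 * (m + 2) + 2) ≠ 0 := by positivity
      field_simp
      ring
    rw [e]
    positivity
  linarith

lemma num3 (q : ℝ) (hq : 2 ≤ q) :
    q ^ 2 / (2 * q + 1) *
      ((1 / 3 + 1 / q + 1 / (q + 2)) * (1 / (2 * q) + 1 / (q + 3) + 1 / (q + 1))
        - ((1 / 3 + 1 / q + 1 / (q + 2)) + (1 / (2 * q) + 1 / (q + 3) + 1 / (q + 1))) /
          (q + (q + 1) + 2)) ≤ (q + 3) / (3 * (q + 1)) := by
  obtain ⟨m, rfl⟩ : ∃ m, q = m + 2 := ⟨q - 2, by ring⟩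
  have hm : 0 ≤ m := by linarith
  have : 0 ≤ ((m + 2) + 3) / (3 * ((m + 2) + 1)) - (m + 2) ^ 2 / (2 * (m + 2) + 1) *
      ((1 / 3 + 1 / (m + 2) + 1 / ((m + 2) + 2)) *
        (1 / (2 * (m + 2)) + 1 / ((m + 2) + 3) + 1 / ((m + 2) + 1))
        - ((1 / 3 + 1 / (m + 2) + 1 / ((m + 2) + 2)) +
          (1 / (2 * (m + 2)) + 1 / ((m + 2) + 3) + 1 / ((m + 2) + 1))) /
          ((m + 2) + ((m + 2) + 1) + 2)) := by
    have e : ((m + 2) + 3) / (3 * ((m + 2) + 1)) - (m + 2) ^ 2 / (2 * (m + 2) + 1) *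
      ((1 / 3 + 1 / (m + 2) + 1 / ((m + 2) + 2)) *
        (1 / (2 * (m + 2)) + 1 / ((m + 2) + 3) + 1 / ((m + 2) + 1))
        - ((1 / 3 + 1 / (m + 2) + 1 / ((m + 2) + 2)) +
          (1 / (2 * (m + 2)) + 1 / ((m + 2) + 3) + 1 / ((m + 2) + 1))) /
          ((m + 2) + ((m + 2) + 1) + 2)) = (40824 + 93312 * m + 87966 * m ^ 2 + 43794 * m ^ 3
            + 12150 * m ^ 4 + 1782 * m ^ 5 + 108 * m ^ 6) /
          (3 * ((m + 2) + 1) * (2 * (m + 2) + 1) * (3 * (m + 2) * ((m + 2) + 2)) *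
            (2 * (m + 2) * ((m + 2) + 3) * ((m + 2) + 1)) * (2 * (m + 2) + 3)) := by
      have e1 : (m + 2) ≠ 0 := by positivity
      have e2 : ((m + 2) + 1) ≠ 0 := by positivity
      have e3 : ((m + 2) + 2) ≠ 0 := by positivity
      have e3' : ((m + 2) + 3) ≠ 0 := by positivity
      have e4 : (2 * (m + 2) + 1) ≠ 0 := by positivity
      have e5 : ((m + 2) + ((m + 2) + 1) + 2) ≠ 0 := by positivity
      have e6 : (2 * (m + 2) + 3) ≠ 0 := by positivity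
      field_simp
      ring
    rw [e]
    positivity
  linarith

lemma pi3_anti (q a b c a' b' c' : ℕ) (ha : a' ≤ a) (hb : b' ≤ b) (hc : c' ≤ c) :
    pi3 q a b c ≤ pi3 q a' b' c' := by
  have ha' : (a' : ℝ) ≤ a := by exact_mod_cast ha
  have hb' : (b' : ℝ) ≤ b := by exact_mod_cast hb
  have hc' : (c' : ℝ) ≤ c := by exact_mod_cast hc
  unfold pi3
  gcongr

lemma lower (a b c t : ℕ) (h : t ≤ a + b + c) :
    ∃ a' b' c' : ℕ, a' ≤ a ∧ b' ≤ b ∧ c' ≤ c ∧ a' + b' + c' = t :=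
  ⟨min a t, min b (t - min a t), t - min a t - min b (t - min a t), by omega, by omega,
    by omega, by omega⟩

lemma UV2 (q x y z : ℕ) (hx : 1 ≤ x) (hx' : x + 1 ≤ q) (h : x + y + z = q) :
    1 / (1 + (y : ℝ) + z) + 1 / (1 + (x : ℝ) + z) + 1 / (1 + (x : ℝ) + y)
        ≤ 1 / 2 + 1 / (q : ℝ) + 1 / ((q : ℝ) + 1) ∧
      1 / ((q : ℝ) + 1 + x) + 1 / ((q : ℝ) + 1 + y) + 1 / ((q : ℝ) + 1 + z)
        ≤ 1 / (2 * (q : ℝ)) + 1 / ((q : ℝ) + 2) + 1 / ((q : ℝ) + 1) := by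
  have hy : (0 : ℝ) ≤ y := Nat.cast_nonneg _
  have hz : (0 : ℝ) ≤ z := Nat.cast_nonneg _
  have hx1 : (1 : ℝ) ≤ x := by exact_mod_cast hx
  have hw1 : (1 : ℝ) ≤ y + z := by
    have : 1 ≤ y + z := by omega
    exact_mod_cast this
  have hqe : (q : ℝ) = x + (y + z) := by
    rw [← h]
    push_cast
    ring
  have hp : 0 ≤ ((x : ℝ) - 1) * ((y + z) - 1) := mul_nonneg (by linarith) (by linarith)
  rw [hqe]
  constructor
  · have h1 := conv (p := 1 + (x : ℝ)) (x := z) (y := y) (by positivity) hz hy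
    have h2 : 1 / (1 + ((y : ℝ) + z)) + 1 / (1 + (x : ℝ)) ≤ 1 / 2 + 1 / (x + ((y : ℝ) + z)) := by
      apply pair (by positivity) (by positivity) (by positivity) (by positivity)
      · ring
      · nlinarith
    have e1 : 1 + (x : ℝ) + (z + y) = x + (y + z) + 1 := by ring
    have e2 : 1 + (y : ℝ) + z = 1 + (y + z) := by ring
    rw [e1] at h1
    rw [e2]
    linarith
  · have h1 := conv (p := x + ((y : ℝ) + z) + 1) (x := y) (y := z) (by positivity) hy hz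
    have h2 : 1 / (x + ((y : ℝ) + z) + 1 + x) + 1 / (x + ((y : ℝ) + z) + 1 + (y + z))
        ≤ 1 / (2 * (x + ((y : ℝ) + z))) + 1 / (x + ((y : ℝ) + z) + 2) := by
      apply pair (by positivity) (by positivity) (by positivity) (by positivity)
      · ring
      · nlinarith
    linarith

lemma UV3 (q x y z : ℕ) (hx : 2 ≤ x) (hx' : x + 1 ≤ q) (h : x + y + z = q + 1) :
    1 / (1 + (y : ℝ) + z) + 1 / (1 + (x : ℝ) + z) + 1 / (1 + (x : ℝ) + y)
        ≤ 1 / 3 + 1 / (q : ℝ) + 1 / ((q : ℝ) + 2) ∧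
      1 / ((q : ℝ) + 1 + x) + 1 / ((q : ℝ) + 1 + y) + 1 / ((q : ℝ) + 1 + z)
        ≤ 1 / (2 * (q : ℝ)) + 1 / ((q : ℝ) + 3) + 1 / ((q : ℝ) + 1) := by
  have hy : (0 : ℝ) ≤ y := Nat.cast_nonneg _
  have hz : (0 : ℝ) ≤ z := Nat.cast_nonneg _
  have hx1 : (2 : ℝ) ≤ x := by exact_mod_cast hx
  have hw1 : (2 : ℝ) ≤ y + z := by
    have : 2 ≤ y + z := by omega
    exact_mod_cast this
  have hqe : (q : ℝ) + 1 = x + (y + z) := by
    have : ((x + y + z : ℕ) : ℝ) = ((q + 1 : ℕ) : ℝ) := by rw [h]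
    push_cast at this
    linarith
  have hq0 : (0 : ℝ) < q := by linarith
  have hp : 0 ≤ ((x : ℝ) - 2) * ((y + z) - 2) := mul_nonneg (by linarith) (by linarith)
  constructor
  · have h1 := conv (p := 1 + (x : ℝ)) (x := z) (y := y) (by positivity) hz hy
    have h2 : 1 / (1 + ((y : ℝ) + z)) + 1 / (1 + (x : ℝ)) ≤ 1 / 3 + 1 / (q : ℝ) := by
      apply pair (by positivity) (by positivity) (by positivity) (by positivity)
      · linarith
      · nlinarith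
    have e1 : 1 + (x : ℝ) + (z + y) = q + 2 := by linarith
    have e2 : 1 + (y : ℝ) + z = 1 + (y + z) := by ring
    rw [e1] at h1
    rw [e2]
    linarith
  · have h1 := conv (p := (q : ℝ) + 1) (x := y) (y := z) (by positivity) hy hz
    have h2 : 1 / ((q : ℝ) + 1 + x) + 1 / ((q : ℝ) + 1 + (y + z))
        ≤ 1 / (2 * (q : ℝ)) + 1 / ((q : ℝ) + 3) := by
      apply pair (by positivity) (by positivity) (by positivity) (by positivity)
      · linarith
      · have hq : (q : ℝ) = x + (y + z) - 1 := by linarith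
        rw [hq]
        nlinarith
    linarith

lemma f1 : S_F1 := by
  intro q a b c h
  have ha : (0 : ℝ) ≤ a := Nat.cast_nonneg _
  have hb : (0 : ℝ) ≤ b := Nat.cast_nonneg _
  have hc : (0 : ℝ) ≤ c := Nat.cast_nonneg _
  obtain ⟨m, rfl⟩ : ∃ m, q = a + b + c + 1 + m := ⟨q - (a + b + c + 1), by omega⟩
  have hm : (0 : ℝ) ≤ m := Nat.cast_nonneg _
  set s : ℝ := (a : ℝ) + b + c with hs
  have hs0 : 0 ≤ s := by positivity
  have hq : ((a + b + c + 1 + m : ℕ) : ℝ) = s + 1 + m := by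
    push_cast
    ring
  have hU : 1 / (1 + (b : ℝ) + c) + 1 / (1 + (a : ℝ) + c) + 1 / (1 + (a : ℝ) + b)
      ≤ 1 + 2 / (1 + s) := by
    have h1 := conv (p := 1 + (c : ℝ)) (x := b) (y := a) (by positivity) hb ha
    have h2 := conv (p := (1 : ℝ)) (x := c) (y := a + b) (by positivity) hc (by positivity)
    have e1 : 1 + (c : ℝ) + (b + a) = 1 + s := by
      rw [hs]
      ring
    have e2 : (1 : ℝ) + (c + (a + b)) = 1 + s := by
      rw [hs]
      ring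
    have e3 : 1 + (b : ℝ) + c = 1 + c + b := by ring
    have e4 : 1 + (a : ℝ) + c = 1 + c + a := by ring
    have e5 : 1 + (a : ℝ) + b = 1 + (a + b) := by ring
    have e6 : 2 / (1 + s) = 1 / (1 + s) + 1 / (1 + s) := by ring
    rw [e1] at h1
    rw [e2] at h2
    rw [e3, e4, e5, e6]
    linarith
  have hV : 1 / (((a + b + c + 1 + m : ℕ) : ℝ) + 1 + a)
      + 1 / (((a + b + c + 1 + m : ℕ) : ℝ) + 1 + b)
      + 1 / (((a + b + c + 1 + m : ℕ) : ℝ) + 1 + c)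
      ≤ 1 / ((s + 1 + m) + 1 + s) + 2 / ((s + 1 + m) + 1) := by
    rw [hq]
    have h1 := conv (p := s + 1 + m + 1) (x := a) (y := b) (by positivity) ha hb
    have h2 := conv (p := s + 1 + m + 1) (x := a + b) (y := c) (by positivity) (by positivity) hc
    have e6 : 2 / (s + 1 + m + 1) = 1 / (s + 1 + m + 1) + 1 / (s + 1 + m + 1) := by ring
    rw [e6]
    linarith
  have hb := bound (a + b + c + 1 + m) a b c _ _ hU hV
  rw [hq] at hb ⊢
  exact hb.trans (num1 s m hs0 hm)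

lemma f2 : S_F2 := by
  intro q a b c hq ha hb hc h
  obtain ⟨a', b', c', h1, h2, h3, h4⟩ := lower a b c q h
  refine (pi3_anti q a b c a' b' c' h1 h2 h3).trans ?_
  have key : 1 / (1 + (b' : ℝ) + c') + 1 / (1 + (a' : ℝ) + c') + 1 / (1 + (a' : ℝ) + b')
        ≤ 1 / 2 + 1 / (q : ℝ) + 1 / ((q : ℝ) + 1) ∧
      1 / ((q : ℝ) + 1 + a') + 1 / ((q : ℝ) + 1 + b') + 1 / ((q : ℝ) + 1 + c')
        ≤ 1 / (2 * (q : ℝ)) + 1 / ((q : ℝ) + 2) + 1 / ((q : ℝ) + 1) := by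
    have hcase : 1 ≤ a' ∨ 1 ≤ b' ∨ 1 ≤ c' := by omega
    rcases hcase with hh | hh | hh
    · exact UV2 q a' b' c' hh (by omega) h4
    · have := UV2 q b' a' c' hh (by omega) (by omega)
      have e1 : 1 + (b' : ℝ) + a' = 1 + a' + b' := by ring
      rw [e1] at this
      exact ⟨by linarith [this.1], by linarith [this.2]⟩
    · have := UV2 q c' a' b' hh (by omega) (by omega)
      have e1 : 1 + (c' : ℝ) + a' = 1 + a' + c' := by ring
      have e2 : 1 + (c' : ℝ) + b' = 1 + b' + c' := by ring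
      rw [e1, e2] at this
      exact ⟨by linarith [this.1], by linarith [this.2]⟩
  have hb := bound q a' b' c' _ _ key.1 key.2
  have e : ((a' : ℝ) + b' + c') = q := by
    rw [← h4]
    push_cast
    ring
  rw [e] at hb
  exact hb.trans (num2 q (by exact_mod_cast hq))

lemma f3 : S_F3 := by
  intro q a b c hq ha hb hc h
  obtain ⟨a', b', c', h1, h2, h3, h4⟩ := lower a b c (q + 1) h
  refine (pi3_anti q a b c a' b' c' h1 h2 h3).trans ?_
  rcases Nat.lt_or_ge q 3 with hq3 | hq3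
  · obtain rfl : q = 2 := by omega
    obtain rfl : a' = 1 := by omega
    obtain rfl : b' = 1 := by omega
    obtain rfl : c' = 1 := by omega
    unfold pi3
    norm_num
  have key : 1 / (1 + (b' : ℝ) + c') + 1 / (1 + (a' : ℝ) + c') + 1 / (1 + (a' : ℝ) + b')
        ≤ 1 / 3 + 1 / (q : ℝ) + 1 / ((q : ℝ) + 2) ∧
      1 / ((q : ℝ) + 1 + a') + 1 / ((q : ℝ) + 1 + b') + 1 / ((q : ℝ) + 1 + c')
        ≤ 1 / (2 * (q : ℝ)) + 1 / ((q : ℝ) + 3) + 1 / ((q : ℝ) + 1) := by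
    have hcase : 2 ≤ a' ∨ 2 ≤ b' ∨ 2 ≤ c' := by omega
    rcases hcase with hh | hh | hh
    · exact UV3 q a' b' c' hh (by omega) h4
    · have := UV3 q b' a' c' hh (by omega) (by omega)
      have e1 : 1 + (b' : ℝ) + a' = 1 + a' + b' := by ring
      rw [e1] at this
      exact ⟨by linarith [this.1], by linarith [this.2]⟩
    · have := UV3 q c' a' b' hh (by omega) (by omega)
      have e1 : 1 + (c' : ℝ) + a' = 1 + a' + c' := by ring
      have e2 : 1 + (c' : ℝ) + b' = 1 + b' + c' := by ring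
      rw [e1, e2] at this
      exact ⟨by linarith [this.1], by linarith [this.2]⟩
  have hb := bound q a' b' c' _ _ key.1 key.2
  have e : ((a' : ℝ) + b' + c') = q + 1 := by
    have : ((a' + b' + c' : ℕ) : ℝ) = ((q + 1 : ℕ) : ℝ) := by rw [h4]
    push_cast at this
    linarith
  rw [e] at hb
  exact hb.trans (num3 q (by exact_mod_cast hq))

end F

theorem t_F : (S_F1 ∧ S_F2 ∧ S_F3) := ⟨F.f1, F.f2, F.f3⟩

end Pool.Agent.N917.K4
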