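import Pool.Agent.N917.K4.Stm

/-!
Project K4 (helper917), part GH: the two exact cases.  Lean proof: helper768.
-/

set_option autoImplicit false

namespace Pool.Agent.N917.K4.GH

open Finset

lemma fin4 : ∀ i j k l : Fin 4, i ≠ j → i ≠ k → i ≠ l → j ≠ k → j ≠ l → k ≠ l →
    ((univ : Finset (Fin 4)).erase i = {j, k, l} ∧ (univ : Finset (Fin 4)) = {i, j, k, l} ∧
      ({j, k, l} : Finset (Fin 4)).erase j = {k, l} ∧
      ({j, k, l} : Finset (Fin 4)).erase k = {j, l} ∧
      ({j, k, l} : Finset (Fin 4)).erase l = {j, k}) := by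
  decide

lemma fin4_others : ∀ i j : Fin 4, i ≠ j → ∃ k l : Fin 4, i ≠ k ∧ i ≠ l ∧ j ≠ k ∧ j ≠ l ∧
    k ≠ l := by
  decide

lemma fin4_cover : ∀ i j k l : Fin 4, i ≠ j → i ≠ k → i ≠ l → j ≠ k → j ≠ l → k ≠ l →
    ∀ x : Fin 4, x = i ∨ x = j ∨ x = k ∨ x = l := by
  decide

lemma sum4 {M : Type*} [AddCommMonoid M] (f : Fin 4 → M) {i j k l : Fin 4} (hij : i ≠ j)
    (hik : i ≠ k) (hil : i ≠ l) (hjk : j ≠ k) (hjl : j ≠ l) (hkl : k ≠ l) :
    ∑ x, f x = f i + (f j + (f k + f l)) := by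
  rw [(fin4 i j k l hij hik hil hjk hjl hkl).2.1, sum_insert, sum_insert, sum_insert, sum_singleton]
  all_goals simp [*]

section sets

variable {V : Type} [DecidableEq V]

lemma d2_comm (X : Finset V) (N : Fin 4 → Finset V) (j k : Fin 4) : d2 X N j k = d2 X N k j := by
  unfold d2
  congr 1
  ext w
  simp only [mem_filter]
  tauto

lemma pp_eq (q : ℕ) (X : Finset V) (N : Fin 4 → Finset V) {i j k l : Fin 4} (hij : i ≠ j)
    (hik : i ≠ k) (hil : i ≠ l) (hjk : j ≠ k) (hjl : j ≠ l) (hkl : k ≠ l) :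
    pp q X N i = (q : ℝ) ^ 2 / (2 * q + 1) *
      (1 / ((d1 X N j : ℝ) * d2 X N j k) + 1 / ((d1 X N j : ℝ) * d2 X N j l)
      + 1 / ((d1 X N k : ℝ) * d2 X N j k) + 1 / ((d1 X N k : ℝ) * d2 X N k l)
      + 1 / ((d1 X N l : ℝ) * d2 X N j l) + 1 / ((d1 X N l : ℝ) * d2 X N k l)) := by
  obtain ⟨e1, _, e3, e4, e5⟩ := fin4 i j k l hij hik hil hjk hjl hkl
  unfold pp
  rw [e1, sum_insert, sum_insert, sum_singleton, e3, e4, e5, sum_pair, sum_pair, sum_pair,
    d2_comm X N k j, d2_comm X N l j, d2_comm X N l k]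
  · ring
  all_goals simp [*]

/-- multiplicity of a point -/
def mu (N : Fin 4 → Finset V) (w : V) : ℕ := ∑ j, if w ∈ N j then 1 else 0

lemma mu_sum (X : Finset V) (N : Fin 4 → Finset V) (hN : ∀ i, N i ⊆ X) :
    ∑ w ∈ X, mu N w = ∑ j, (N j).card := by
  unfold mu
  rw [sum_comm]
  refine sum_congr rfl fun j _ => ?_
  rw [← card_filter, filter_mem_eq_inter, inter_eq_right.2 (hN j)]

lemma mu_one {N : Fin 4 → Finset V} {w : V} {i : Fin 4} (hi : w ∈ N i) : 1 ≤ mu N w := by
  unfold mu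
  calc 1 = if w ∈ N i then 1 else 0 := by rw [if_pos hi]
    _ ≤ _ := single_le_sum (f := fun j => if w ∈ N j then 1 else 0) (fun _ _ => Nat.zero_le _)
        (mem_univ i)

lemma mu_two {N : Fin 4 → Finset V} {w : V} {i j : Fin 4} (hij : i ≠ j) (hi : w ∈ N i)
    (hj : w ∈ N j) : 2 ≤ mu N w := by
  unfold mu
  calc 2 = ∑ x ∈ {i, j}, if w ∈ N x then 1 else 0 := by
        rw [sum_pair hij, if_pos hi, if_pos hj]
    _ ≤ _ := sum_le_sum_of_subset (subset_univ _)

lemma mu_three {N : Fin 4 → Finset V} {w : V} {i j k : Fin 4} (hij : i ≠ j) (hik : i ≠ k)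
    (hjk : j ≠ k) (hi : w ∈ N i) (hj : w ∈ N j) (hk : w ∈ N k) : 3 ≤ mu N w := by
  unfold mu
  calc 3 = ∑ x ∈ {i, j, k}, if w ∈ N x then 1 else 0 := by
        rw [sum_insert (by simp [hij, hik]), sum_pair hjk, if_pos hi, if_pos hj, if_pos hk]
        norm_num
    _ ≤ _ := sum_le_sum_of_subset (subset_univ _)

lemma un_zero {X : Finset V} {N : Fin 4 → Finset V} (h : un X N = 0) {w : V} (hw : w ∈ X) :
    ∃ j, w ∈ N j := by
  unfold un at h
  rw [card_eq_zero, filter_eq_empty_iff] at h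
  have := h hw
  push Not at this
  exact this

lemma d1_eq {X : Finset V} {N : Fin 4 → Finset V} {j : Fin 4} (hj : N j ⊆ X) :
    d1 X N j + (N j).card = X.card := by
  unfold d1
  have e : X.filter (fun w => w ∉ N j) = X \ N j := by
    ext w; simp [mem_filter, mem_sdiff]
  rw [e, card_sdiff_add_card_eq_card hj]

lemma d2_eq {X : Finset V} {N : Fin 4 → Finset V} {j k : Fin 4} (hj : N j ⊆ X) (hk : N k ⊆ X)
    (hd : ∀ w, w ∈ N j → w ∉ N k) : d2 X N j k + ((N j).card + (N k).card) = X.card := by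
  unfold d2
  have e : X.filter (fun w => w ∉ N j ∧ w ∉ N k) = X \ (N j ∪ N k) := by
    ext w; simp [mem_filter, mem_sdiff, mem_union, not_or]
  have hdis : Disjoint (N j) (N k) := by
    rw [disjoint_left]
    exact fun w => hd w
  rw [e, ← card_union_of_disjoint hdis, card_sdiff_add_card_eq_card (union_subset hj hk)]

/-- if all points in `N i` are only in `N i` then `al` is the size of `N i` -/
lemma al_eq {X : Finset V} {N : Fin 4 → Finset V} {i : Fin 4} (hi : N i ⊆ X)
    (hun : un X N = 0) (hd : ∀ j, j ≠ i → ∀ w, w ∈ N i → w ∉ N j) :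
    al X N i = (N i).card := by
  unfold al
  congr 1
  ext w
  rw [mem_filter]
  constructor
  · rintro ⟨hw, h⟩
    obtain ⟨j, hj⟩ := un_zero hun hw
    by_cases hji : j = i
    · rw [← hji]; exact hj
    · exact absurd hj (h j hji)
  · exact fun hw => ⟨hi hw, fun j hj => hd j hj w hw⟩

end sets

lemma six {a b c : ℝ} (ha : 0 < a) (hb : 0 < b) (hc : 0 < c) :
    (1 / ((a + b + c) * (b + c)) * (1 / b + 1 / c) + 1 / ((a + b + c) * (a + c)) * (1 / a + 1 / c)
      + 1 / ((a + b + c) * (a + b)) * (1 / a + 1 / b)) = 1 / (a * b * c) := by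
  field_simp
  ring

lemma h0id {a b : ℝ} (ha : 0 < a) (hb : 0 < b) :
    let q := a + b
    let c := q ^ 2 / (2 * q + 1)
    let pi := c * (1 / ((q + 1) * (1 + b)) + 1 / ((q + 1) * (1 + a)) + 1 / ((q + b + 1) * (1 + b))
      + 1 / ((q + b + 1) * (q + 1)) + 1 / ((q + a + 1) * (1 + a)) + 1 / ((q + a + 1) * (q + 1)))
    let pk := c * (2 / ((q + 1) * q) + 2 / ((q + 1) * (1 + a)) + 2 / ((q + a + 1) * (1 + a)))
    let pl := c * (2 / ((q + 1) * q) + 2 / ((q + 1) * (1 + b)) + 2 / ((q + b + 1) * (1 + b)))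
    2 * pi + pk / a + pl / b = 2 * q ^ 2 / ((q + 1) * (a * b)) := by
  intro q c pi pk pl
  simp only [q, c, pi, pk, pl]
  field_simp
  ring

lemma h0ineq {a b : ℝ} (ha1 : 1 ≤ a) (hb1 : 1 ≤ b) :
    2 * (a + b) ^ 2 / ((a + b + 1) * (a * b)) - b / a - a / b ≤ 1 := by
  have ha0 : 0 < a := by linarith
  have hb0 : 0 < b := by linarith
  have e1 : 2 * (a + b) ^ 2 / ((a + b + 1) * (a * b)) - b / a - a / b - 1 =
      (2 * (a + b) ^ 2 - (a + b + 1) * (b ^ 2 + a ^ 2 + a * b)) /
        ((a + b + 1) * (a * b)) := by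
    field_simp
    ring
  have e2 : (2 * (a + b) ^ 2 - (a + b + 1) * (b ^ 2 + a ^ 2 + a * b)) /
        ((a + b + 1) * (a * b)) ≤ 0 := by
    apply div_nonpos_of_nonpos_of_nonneg
    · have hq2 : 2 ≤ a + b := by linarith
      have h5 : 3 * (a + b) ^ 2 ≤ 4 * (b ^ 2 + a ^ 2 + a * b) := by nlinarith [sq_nonneg (a - b)]
      have h6 : 3 * (b ^ 2 + a ^ 2 + a * b) ≤ (a + b + 1) * (b ^ 2 + a ^ 2 + a * b) := by
        apply mul_le_mul_of_nonneg_right (by linarith) (by positivity)
      nlinarith [sq_nonneg (a + b)]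
    · positivity
  linarith

theorem t_G : S_G := by
  intro V _ q X Y N M hS e E he hE hun hEq
  have hn : ∀ i, (N i).card + e i = q := by
    intro i
    have h1 := hS.hc i
    rw [he i]
    omega
  have hsum : ∑ j, (N j).card = X.card := by
    have h1 : ∑ j, (N j).card + E = 4 * q := by
      rw [hE, ← sum_add_distrib, sum_congr rfl fun i _ => hn i]
      simp
    rw [hS.hX]
    omega
  have hmu : ∀ w ∈ X, 1 = mu N w := by
    refine (sum_eq_sum_iff_of_le (s := X) (f := fun _ => 1) (g := fun w => mu N w) ?_).1 ?_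
    · intro w hw
      obtain ⟨j, hj⟩ := un_zero hun hw
      exact mu_one hj
    · rw [mu_sum X N hS.hN, hsum]
      simp
  have hd : ∀ i j, i ≠ j → ∀ w, w ∈ N i → w ∉ N j := by
    intro i j hij w hi hj
    have h1 := mu_two hij hi hj
    have h2 := hmu w (hS.hN i hi)
    omega
  have hal : ∀ i, al X N i = (N i).card := fun i =>
    al_eq (hS.hN i) hun fun j hj w hw => hd i j hj.symm w hw
  refine ⟨fun i => by rw [hal i]; exact hn i, ?_⟩
  -- real numbers
  obtain ⟨n, hnn⟩ : ∃ n : Fin 4 → ℝ, ∀ i, n i = ((N i).card : ℝ) := ⟨_, fun _ => rfl⟩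
  have hpos : ∀ i, 0 < n i := by
    intro i
    rw [hnn]
    obtain ⟨x, hx, _⟩ := hS.hx i
    exact_mod_cast card_pos.2 ⟨x, hx⟩
  have hs : n 0 + n 1 + n 2 + n 3 = 2 * q + 1 := by
    have h1 : (∑ j, ((N j).card : ℝ)) = 2 * q + 1 := by
      have : ((∑ j, (N j).card : ℕ) : ℝ) = ((2 * q + 1 : ℕ) : ℝ) := by rw [hsum, hS.hX]
      push_cast at this
      exact this
    rw [Fin.sum_univ_four] at h1
    rw [hnn, hnn, hnn, hnn]
    exact h1
  have hD1 : ∀ j, (d1 X N j : ℝ) = 2 * q + 1 - n j := by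
    intro j
    have h1 := d1_eq (hS.hN j)
    have h2 : (d1 X N j : ℝ) + n j = 2 * q + 1 := by
      rw [hnn]
      have : ((d1 X N j + (N j).card : ℕ) : ℝ) = ((2 * q + 1 : ℕ) : ℝ) := by rw [h1, hS.hX]
      push_cast at this
      exact this
    linarith
  have hD2 : ∀ j k, j ≠ k → (d2 X N j k : ℝ) = 2 * q + 1 - n j - n k := by
    intro j k hjk
    have h1 := d2_eq (hS.hN j) (hS.hN k) (hd j k hjk)
    have h2 : (d2 X N j k : ℝ) + (n j + n k) = 2 * q + 1 := by
      rw [hnn, hnn]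
      have : ((d2 X N j k + ((N j).card + (N k).card) : ℕ) : ℝ) = ((2 * q + 1 : ℕ) : ℝ) := by
        rw [h1, hS.hX]
      push_cast at this
      exact this
    linarith
  have he' : ∀ i, (q : ℝ) - e i = n i := by
    intro i
    have : (((N i).card + e i : ℕ) : ℝ) = (q : ℝ) := by rw [hn i]
    push_cast at this
    rw [hnn]
    linarith
  have hprod : ∏ i, ((q : ℝ) - e i) = n 0 * n 1 * n 2 * n 3 := by
    rw [Fin.prod_univ_four, he', he', he', he']
  rw [hprod, Fin.sum_univ_four, hal, hal, hal, hal, ← hnn, ← hnn, ← hnn, ← hnn,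
    pp_eq q X N (i := 0) (j := 1) (k := 2) (l := 3) (by decide) (by decide) (by decide) (by decide)
      (by decide) (by decide),
    pp_eq q X N (i := 1) (j := 0) (k := 2) (l := 3) (by decide) (by decide) (by decide) (by decide)
      (by decide) (by decide),
    pp_eq q X N (i := 2) (j := 0) (k := 1) (l := 3) (by decide) (by decide) (by decide) (by decide)
      (by decide) (by decide),
    pp_eq q X N (i := 3) (j := 0) (k := 1) (l := 2) (by decide) (by decide) (by decide) (by decide)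
      (by decide) (by decide)]
  have a0 := hpos 0
  have a1 := hpos 1
  have a2 := hpos 2
  have a3 := hpos 3
  have D0 : (d1 X N 0 : ℝ) = n 1 + n 2 + n 3 := by rw [hD1]; linarith
  have D1 : (d1 X N 1 : ℝ) = n 0 + n 2 + n 3 := by rw [hD1]; linarith
  have D2 : (d1 X N 2 : ℝ) = n 0 + n 1 + n 3 := by rw [hD1]; linarith
  have D3 : (d1 X N 3 : ℝ) = n 0 + n 1 + n 2 := by rw [hD1]; linarith
  have D01 : (d2 X N 0 1 : ℝ) = n 2 + n 3 := by rw [hD2 0 1 (by decide)]; linarith
  have D02 : (d2 X N 0 2 : ℝ) = n 1 + n 3 := by rw [hD2 0 2 (by decide)]; linarith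
  have D03 : (d2 X N 0 3 : ℝ) = n 1 + n 2 := by rw [hD2 0 3 (by decide)]; linarith
  have D12 : (d2 X N 1 2 : ℝ) = n 0 + n 3 := by rw [hD2 1 2 (by decide)]; linarith
  have D13 : (d2 X N 1 3 : ℝ) = n 0 + n 2 := by rw [hD2 1 3 (by decide)]; linarith
  have D23 : (d2 X N 2 3 : ℝ) = n 0 + n 1 := by rw [hD2 2 3 (by decide)]; linarith
  rw [D0, D1, D2, D3, D01, D02, D03, D12, D13, D23]
  have s0 := six a1 a2 a3
  have s1 := six a0 a2 a3
  have s2 := six a0 a1 a3
  have s3 := six a0 a1 a2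
  have hq1 : (0 : ℝ) < 2 * q + 1 := by positivity
  have key : 1 / (n 1 * n 2 * n 3) + 1 / (n 0 * n 2 * n 3) + 1 / (n 0 * n 1 * n 3)
      + 1 / (n 0 * n 1 * n 2) = (2 * q + 1) / (n 0 * n 1 * n 2 * n 3) := by
    rw [← hs]
    field_simp
  have key2 : (q : ℝ) ^ 2 / (n 0 * n 1 * n 2 * n 3) = (q : ℝ) ^ 2 / (2 * q + 1) *
      ((2 * q + 1) / (n 0 * n 1 * n 2 * n 3)) := by
    field_simp
  rw [key2, ← key, ← s0, ← s1, ← s2, ← s3]
  generalize (q : ℝ) ^ 2 / (2 * q + 1) = c
  generalize n 0 = x0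
  generalize n 1 = x1
  generalize n 2 = x2
  generalize n 3 = x3
  simp only [one_div, mul_inv]
  ring

theorem t_H0 : S_H0 := by
  intro V _ q X Y N M hq hS e E he hE i j hij hYi hYj hai haj hei hej hEq
  obtain ⟨k, l, hik, hil, hjk, hjl, hkl⟩ := fin4_others i j hij
  have hcov := fin4_cover i j k l hij hik hil hjk hjl hkl
  have hn : ∀ i, (N i).card + e i = q := by
    intro i
    have h1 := hS.hc i
    rw [he i]
    omega
  have hni : (N i).card = q := by have := hn i; omega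
  have hnj : (N j).card = q := by have := hn j; omega
  have hkl' : e k + e l = q := by
    rw [hE, sum4 e hij hik hil hjk hjl hkl, hei, hej] at hEq
    omega
  have hnkl : (N k).card + (N l).card = q := by
    have h1 := hn k
    have h2 := hn l
    omega
  -- private points
  have hpriv : ∀ i, al X N i = 1 → ∃ x ∈ N i, (∀ j, j ≠ i → x ∉ N j) ∧
      ∀ w ∈ X, (∀ j, j ≠ i → w ∉ N j) → w = x := by
    intro i hi
    obtain ⟨x, hx, hx'⟩ := hS.hx i
    refine ⟨x, hx, hx', fun w hw hw' => ?_⟩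
    unfold al at hi
    rw [card_eq_one] at hi
    obtain ⟨y, hy⟩ := hi
    have h1 : w ∈ X.filter (fun w => ∀ j, j ≠ i → w ∉ N j) := mem_filter.2 ⟨hw, hw'⟩
    have h2 : x ∈ X.filter (fun w => ∀ j, j ≠ i → w ∉ N j) := mem_filter.2 ⟨hS.hN i hx, hx'⟩
    rw [hy, mem_singleton] at h1 h2
    rw [h1, h2]
  obtain ⟨xi, hxi, hxi', hxiu⟩ := hpriv i hai
  obtain ⟨xj, hxj, hxj', hxju⟩ := hpriv j haj
  have hcovN : ∀ w ∈ X, ∃ j, w ∈ N j := by
    intro w hw
    by_contra hcon
    push Not at hcon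
    have h1 := hxiu w hw (fun j _ => hcon j)
    exact hcon i (h1 ▸ hxi)
  have hun : un X N = 0 := by
    unfold un
    rw [card_eq_zero, filter_eq_empty_iff]
    intro w hw hcon
    obtain ⟨j, hj⟩ := hcovN w hw
    exact hcon j hj
  have hmusum : ∑ w ∈ X, mu N w = 3 * q := by
    rw [mu_sum X N hS.hN, sum4 (fun j => (N j).card) hij hik hil hjk hjl hkl, hni, hnj, hnkl]
    ring
  -- multiplicities
  have hO : ∀ i x, x ∈ N i → (∀ j, j ≠ i → x ∉ N j) → (∀ w ∈ X, (∀ j, j ≠ i → w ∉ N j) → w = x) →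
      (N i).card = q → ∀ w ∈ X, 1 + (if w ∈ (N i).erase x then 1 else 0) = mu N w := by
    intro i x hx hx' hxu hci
    refine (sum_eq_sum_iff_of_le (s := X)
      (f := fun w => 1 + (if w ∈ (N i).erase x then 1 else 0)) (g := fun w => mu N w) ?_).1 ?_
    · intro w hw
      by_cases h : w ∈ (N i).erase x
      · simp only [if_pos h]
        rw [mem_erase] at h
        by_contra hcon
        apply h.1
        refine hxu w hw fun j hji hwj => ?_
        have := mu_two hji hwj h.2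
        omega
      · simp only [if_neg h]
        obtain ⟨j, hj⟩ := hcovN w hw
        exact mu_one hj
    · rw [hmusum, sum_add_distrib, ← card_filter, filter_mem_eq_inter,
        inter_eq_right.2 ((erase_subset _ _).trans (hS.hN i)), card_erase_of_mem hx, hci]
      simp only [sum_const, smul_eq_mul, mul_one, hS.hX]
      omega
  have hOi := hO i xi hxi hxi' hxiu hni
  have hOj := hO j xj hxj hxj' hxju hnj
  have hle : ∀ w ∈ X, mu N w ≤ 2 := by
    intro w hw
    rw [← hOi w hw]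
    split_ifs <;> omega
  have htwo : ∀ w ∈ X, 2 ≤ mu N w → w ∈ N i ∧ w ∈ N j := by
    intro w hw h
    have h1 := hOi w hw
    have h2 := hOj w hw
    constructor
    · by_contra hcon
      rw [if_neg (fun h => hcon (mem_of_mem_erase h))] at h1
      omega
    · by_contra hcon
      rw [if_neg (fun h => hcon (mem_of_mem_erase h))] at h2
      omega
  -- a point of `N k` (`k` not `i, j`) is only in `N k`
  have honly : ∀ k, k ≠ i → k ≠ j → ∀ l, l ≠ k → ∀ w, w ∈ N k → w ∉ N l := by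
    intro k hki hkj l hlk w hwk hwl
    have hw := hS.hN k hwk
    have h1 := mu_two hlk hwl hwk
    obtain ⟨h2, h3⟩ := htwo w hw h1
    have h4 := mu_three hij hki.symm hkj.symm h2 h3 hwk
    have h5 := hle w hw
    omega
  have halk : al X N k = (N k).card :=
    al_eq (hS.hN k) hun fun l hl w hw => honly k hik.symm hjk.symm l hl w hw
  have hall : al X N l = (N l).card :=
    al_eq (hS.hN l) hun fun m hm w hw => honly l hil.symm hjl.symm m hm w hw
  have dij : d2 X N i j = q := by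
    unfold d2
    have e1 : X.filter (fun w => w ∉ N i ∧ w ∉ N j) = N k ∪ N l := by
      ext w
      rw [mem_filter, mem_union]
      constructor
      · rintro ⟨hw, h1, h2⟩
        obtain ⟨m, hm⟩ := hcovN w hw
        rcases hcov m with rfl | rfl | rfl | rfl
        · exact absurd hm h1
        · exact absurd hm h2
        · exact Or.inl hm
        · exact Or.inr hm
      · rintro (h | h)
        · exact ⟨hS.hN k h, honly k hik.symm hjk.symm i hik w h,
            honly k hik.symm hjk.symm j hjk w h⟩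
        · exact ⟨hS.hN l h, honly l hil.symm hjl.symm i hil w h,
            honly l hil.symm hjl.symm j hjl w h⟩
    have hdis : Disjoint (N k) (N l) := by
      rw [disjoint_left]
      exact fun w hw => honly k hik.symm hjk.symm l hkl.symm w hw
    rw [e1, card_union_of_disjoint hdis, hnkl]
  have dik := d2_eq (hS.hN i) (hS.hN k) fun w hw hw' => honly k hik.symm hjk.symm i hik w hw' hw
  have dil := d2_eq (hS.hN i) (hS.hN l) fun w hw hw' => honly l hil.symm hjl.symm i hil w hw' hw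
  have djk := d2_eq (hS.hN j) (hS.hN k) fun w hw hw' => honly k hik.symm hjk.symm j hjk w hw' hw
  have djl := d2_eq (hS.hN j) (hS.hN l) fun w hw hw' => honly l hil.symm hjl.symm j hjl w hw' hw
  have dkl := d2_eq (hS.hN k) (hS.hN l) fun w hw hw' => honly k hik.symm hjk.symm l hkl.symm w hw hw'
  have di := d1_eq (hS.hN i)
  have dj := d1_eq (hS.hN j)
  have dk := d1_eq (hS.hN k)
  have dl := d1_eq (hS.hN l)
  rw [hS.hX] at dik dil djk djl dkl di dj dk dl
  rw [hni] at dik dil di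
  rw [hnj] at djk djl dj
  -- the part in `Y`
  have hMi : M i = ∅ := by
    rw [← card_eq_zero]
    have := hS.hc i
    clear * - this hni
    omega
  have hMj : M j = ∅ := by
    rw [← card_eq_zero]
    have := hS.hc j
    clear * - this hnj
    omega
  have hY : ∀ k l, k ≠ l → (∀ x, x = i ∨ x = j ∨ x = k ∨ x = l) →
      (N k).card + (N l).card = q → (N l).card ≤ al Y M k := by
    intro k l hkl hcov hnkl
    have h1 : Y \ M l ⊆ Y.filter (fun w => ∀ j, j ≠ k → w ∉ M j) := by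
      intro w hw
      rw [mem_sdiff] at hw
      rw [mem_filter]
      refine ⟨hw.1, fun m hm hwm => ?_⟩
      rcases hcov m with rfl | rfl | rfl | rfl
      · rw [hMi] at hwm; exact absurd hwm (notMem_empty w)
      · rw [hMj] at hwm; exact absurd hwm (notMem_empty w)
      · exact hm rfl
      · exact hw.2 hwm
    have h2 := card_le_card h1
    have h3 := card_sdiff_add_card_eq_card (hS.hM l)
    have h4 := hS.hc l
    rw [hS.hY] at h3
    unfold al
    clear * - h2 h3 h4 hnkl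
    omega
  have hYk := hY k l hkl hcov hnkl
  have hYl := hY l k hkl.symm (fun x => by rcases hcov x with h | h | h | h <;> simp [h])
    (by clear * - hnkl; omega)
  -- real numbers
  obtain ⟨a, ha⟩ : ∃ a : ℝ, a = ((N k).card : ℝ) := ⟨_, rfl⟩
  obtain ⟨b, hb⟩ : ∃ b : ℝ, b = ((N l).card : ℝ) := ⟨_, rfl⟩
  have ha1 : 1 ≤ a := by
    obtain ⟨x, hx, _⟩ := hS.hx k
    rw [ha]
    exact_mod_cast card_pos.2 ⟨x, hx⟩
  have hb1 : 1 ≤ b := by
    obtain ⟨x, hx, _⟩ := hS.hx l
    rw [hb]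
    exact_mod_cast card_pos.2 ⟨x, hx⟩
  have hqr : (q : ℝ) = a + b := by rw [ha, hb]; exact_mod_cast hnkl.symm
  have Di : (d1 X N i : ℝ) = a + b + 1 := by
    have h : d1 X N i = q + 1 := by clear * - di; omega
    rw [h]; push_cast; rw [hqr]
  have Dj : (d1 X N j : ℝ) = a + b + 1 := by
    have h : d1 X N j = q + 1 := by clear * - dj; omega
    rw [h]; push_cast; rw [hqr]
  have Dk : (d1 X N k : ℝ) = a + b + b + 1 := by
    have h : d1 X N k = q + (N l).card + 1 := by clear * - dk hnkl; omega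
    rw [h]; push_cast; rw [hqr, ← hb]
  have Dl : (d1 X N l : ℝ) = a + b + a + 1 := by
    have h : d1 X N l = q + (N k).card + 1 := by clear * - dl hnkl; omega
    rw [h]; push_cast; rw [hqr, ← ha]
  have Dij : (d2 X N i j : ℝ) = a + b := by rw [dij, hqr]
  have Dik : (d2 X N i k : ℝ) = 1 + b := by
    have h : d2 X N i k = 1 + (N l).card := by clear * - dik hnkl; omega
    rw [h]; push_cast; rw [← hb]
  have Djk : (d2 X N j k : ℝ) = 1 + b := by
    have h : d2 X N j k = 1 + (N l).card := by clear * - djk hnkl; omega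
    rw [h]; push_cast; rw [← hb]
  have Dil : (d2 X N i l : ℝ) = 1 + a := by
    have h : d2 X N i l = 1 + (N k).card := by clear * - dil hnkl; omega
    rw [h]; push_cast; rw [← ha]
  have Djl : (d2 X N j l : ℝ) = 1 + a := by
    have h : d2 X N j l = 1 + (N k).card := by clear * - djl hnkl; omega
    rw [h]; push_cast; rw [← ha]
  have Dkl : (d2 X N k l : ℝ) = a + b + 1 := by
    have h : d2 X N k l = q + 1 := by clear * - dkl hnkl; omega
    rw [h]; push_cast; rw [hqr]
  have Pi := pp_eq q X N hij hik hil hjk hjl hkl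
  have Pj := pp_eq q X N hij.symm hjk hjl hik hil hkl
  have Pk := pp_eq q X N hik.symm hjk.symm hkl hij hil hjl
  have Pl := pp_eq q X N hil.symm hjl.symm hkl.symm hij hik hjk
  rw [Dj, Djk, Djl, Dk, Dkl, Dl, hqr] at Pi
  rw [Di, Dik, Dil, Dk, Dkl, Dl, hqr] at Pj
  rw [Di, Dij, Dil, Dj, Djl, Dl, hqr] at Pk
  rw [Di, Dij, Dik, Dj, Djk, Dk, hqr] at Pl
  have hid := h0id (a := a) (b := b) (by linarith) (by linarith)
  simp only at hid
  rw [sum4 (fun i => (pp q X N i - (al Y M i : ℝ)) / (al X N i : ℝ)) hij hik hil hjk hjl hkl]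
  simp only [hai, haj, hYi, hYj, halk, hall, ← ha, ← hb]
  have hyk : b ≤ (al Y M k : ℝ) := by rw [hb]; exact_mod_cast hYk
  have hyl : a ≤ (al Y M l : ℝ) := by rw [ha]; exact_mod_cast hYl
  have ha0 : 0 < a := by linarith
  have hb0 : 0 < b := by linarith
  have h1 : (pp q X N k - (al Y M k : ℝ)) / a ≤ pp q X N k / a - b / a := by
    rw [← sub_div]; gcongr
  have h2 : (pp q X N l - (al Y M l : ℝ)) / b ≤ pp q X N l / b - a / b := by
    rw [← sub_div]; gcongr
  have h3 : pp q X N i + pp q X N j + pp q X N k / a + pp q X N l / b =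
      2 * (a + b) ^ 2 / ((a + b + 1) * (a * b)) := by
    rw [← hid, Pi, Pj, Pk, Pl]
    ring
  have h4 := h0ineq ha1 hb1
  push_cast
  rw [sub_zero, sub_zero, div_one, div_one]
  clear * - h1 h2 h3 h4
  linarith

end Pool.Agent.N917.K4.GH

namespace Pool.Agent.N917.K4

theorem t_GH : (S_G ∧ S_H0) := ⟨GH.t_G, GH.t_H0⟩

end Pool.Agent.N917.K4
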