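import Pool.Agent.N917.K4.Stm2

/-!
Project K4 (helper917), part LOCG: from the set systems to the cliques (helper769).
-/

set_option autoImplicit false
set_option linter.unusedSectionVars false

namespace Pool.Agent.N917.K4.LOCG

open Finset
open Pool.Agent.Results.MP_76b19e_co.ForcedCliques (nn cnb cl mem_cl mem_cnb)

section

variable {V : Type} [DecidableEq V] (G : SimpleGraph V) [DecidableRel G.Adj]

/-- the non-neighbours -/
def NN (W : Finset V) (f : Fin 4 → V) (i : Fin 4) : Finset V := W.filter fun w => ¬ G.Adj (f i) w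

lemma not_mem {W : Finset V} {f : Fin 4 → V} {i : Fin 4} {w : V} (hw : w ∈ W) :
    w ∉ NN G W f i ↔ G.Adj (f i) w := by
  unfold NN
  rw [mem_filter, not_and, not_not]
  exact ⟨fun h => h hw, fun h _ => h⟩

lemma al_eq (W : Finset V) (f : Fin 4 → V) (i : Fin 4) :
    (cnb G W ((univ.erase i).image f)).card = al W (NN G W f) i := by
  unfold cnb al
  congr 1
  refine filter_congr fun w hw => ?_
  constructor
  · intro h j hj
    rw [not_mem G hw]
    exact h _ (mem_image_of_mem f (mem_erase.2 ⟨hj, mem_univ _⟩))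
  · intro h s hs
    obtain ⟨j, hj, rfl⟩ := mem_image.1 hs
    exact (not_mem G hw).1 (h j (mem_erase.1 hj).1)

lemma d1_eq (W : Finset V) (f : Fin 4 → V) (j : Fin 4) :
    (cnb G W {f j}).card = d1 W (NN G W f) j := by
  unfold cnb d1
  congr 1
  refine filter_congr fun w hw => ?_
  rw [not_mem G hw]
  simp

lemma d2_eq (W : Finset V) (f : Fin 4 → V) (j k : Fin 4) :
    (cnb G W {f j, f k}).card = d2 W (NN G W f) j k := by
  unfold cnb d2
  congr 1
  refine filter_congr fun w hw => ?_
  rw [not_mem G hw, not_mem G hw]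
  simp

lemma tw_eq (q : ℕ) (X : Finset V) (f : Fin 4 → V) (hf : Function.Injective f) (i : Fin 4) :
    tw G q X ((univ.erase i).image f) = pp q X (NN G X f) i := by
  unfold tw pp
  congr 1
  rw [sum_image fun a _ b _ h => hf h]
  refine sum_congr rfl fun j _ => ?_
  rw [← image_erase hf, sum_image fun a _ b _ h => hf h]
  refine sum_congr rfl fun k _ => ?_
  rw [d1_eq, d2_eq]

end

end Pool.Agent.N917.K4.LOCG

namespace Pool.Agent.N917.K4

open Finset LOCG
open Pool.Agent.Results.MP_76b19e_co.ForcedCliques (nn cnb cl mem_cl mem_cnb)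

theorem t_LOCG : S_LOC → S_LOCG := by
  intro hL V _ G _ q X Y hq hXY hX hY hnn K hK
  obtain ⟨hKX, hKc⟩ := (mem_cl G).1 hK
  obtain ⟨f, hf, hfK⟩ : ∃ f : Fin 4 → V, Function.Injective f ∧ univ.image f = K := by
    have e := K.equivFinOfCardEq hKc.card_eq
    refine ⟨fun i => (e.symm i : V), fun a b h => e.symm.injective (Subtype.ext h), ?_⟩
    ext x
    rw [mem_image]
    constructor
    · rintro ⟨i, _, rfl⟩
      exact (e.symm i).2
    · intro hx
      exact ⟨e ⟨x, hx⟩, mem_univ _, by simp⟩
  have hmem : ∀ i, f i ∈ K := fun i => by rw [← hfK]; exact mem_image_of_mem f (mem_univ i)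
  have hsys : Sys q X Y (NN G X f) (NN G Y f) := by
    refine ⟨hX, hY, fun i => filter_subset _ _, fun i => filter_subset _ _, fun i => ?_, fun i => ?_⟩
    · have h1 := hnn (f i) (hKX (hmem i))
      unfold nn at h1
      rw [filter_union, card_union_of_disjoint (disjoint_filter_filter hXY)] at h1
      exact h1
    · refine ⟨f i, mem_filter.2 ⟨hKX (hmem i), G.loopless.irrefl _⟩, fun j hj => ?_⟩
      rw [not_mem G (hKX (hmem i))]
      exact hKc.isClique (hmem j) (hmem i) fun h => hj (hf h)
  have h := hL V q X Y _ _ hq hsys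
  refine le_trans (le_of_eq ?_) h
  rw [← hfK, sum_image fun a _ b _ h => hf h]
  refine sum_congr rfl fun i _ => ?_
  rw [← image_erase hf, tw_eq G q X f hf, al_eq, al_eq]

end Pool.Agent.N917.K4
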