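import Pool.Agent.N917.K4.Stm2

/-!
Project K4 (helper917), the local inequality from its parts.
-/

namespace Pool.Agent.N917.K4

open Finset

theorem others (i : Fin 4) : ∃ a b c : Fin 4, i ≠ a ∧ i ≠ b ∧ i ≠ c ∧ a ≠ b ∧ a ≠ c ∧ b ≠ c ∧
    ∀ e : Fin 4 → ℕ, ∑ j, e j = e i + (e a + e b + e c) := by
  fin_cases i
  · exact ⟨1, 2, 3, by decide, by decide, by decide, by decide, by decide, by decide,
      fun e => by rw [Fin.sum_univ_four]; simp only [Fin.mk_zero]; ring⟩
  · exact ⟨0, 2, 3, by decide, by decide, by decide, by decide, by decide, by decide,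
      fun e => by rw [Fin.sum_univ_four]; simp only [Fin.mk_one]; ring⟩
  · exact ⟨0, 1, 3, by decide, by decide, by decide, by decide, by decide, by decide,
      fun e => by rw [Fin.sum_univ_four]; simp only [Fin.reduceFinMk]; ring⟩
  · exact ⟨0, 1, 2, by decide, by decide, by decide, by decide, by decide, by decide,
      fun e => by rw [Fin.sum_univ_four]; simp only [Fin.reduceFinMk]; ring⟩

theorem loc_of (hF : S_F1 ∧ S_F2 ∧ S_F3) (hNUM : S_NUM) (hP : S_P) (hSET : S_SET)
    (hGH : S_G ∧ S_H0) : S_LOC := by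
  intro V _ q X Y N M hq hS
  obtain ⟨F1, F2, F3⟩ := hF
  obtain ⟨hG, hH⟩ := hGH
  obtain ⟨s1, s2, s3, s4, s5, s6, s7, s8⟩ := hSET V q X Y N M hS (fun i => q - (N i).card)
    (∑ i, (q - (N i).card)) (fun _ => rfl) rfl
  refine hNUM q (∑ i, (q - (N i).card)) (un X N) (fun i => q - (N i).card) (al X N) (al Y M)
    (pp q X N) hq ?_
  refine ⟨rfl, s1, ?_, ?_, ?_, ?_, s2, s3, s4, s5, s6, s7, s8, ?_, ?_⟩
  · intro i hi
    obtain ⟨a, b, c, h1, h2, h3, h4, h5, h6, hsum⟩ := others i
    have hs := hsum (fun i => q - (N i).card)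
    have hb := hP V q X Y N M hS i a b c h1 h2 h3 h4 h5 h6
    rw [hs] at hi ⊢
    have := F1 q (q - (N a).card) (q - (N b).card) (q - (N c).card) (by omega)
    push_cast at this ⊢
    linarith
  · intro i hi
    obtain ⟨a, b, c, h1, h2, h3, h4, h5, h6, hsum⟩ := others i
    have hs := hsum (fun i => q - (N i).card)
    have hb := hP V q X Y N M hS i a b c h1 h2 h3 h4 h5 h6
    rw [hs] at hi
    exact hb.trans (F2 q _ _ _ hq (s1 a) (s1 b) (s1 c) (by omega))
  · intro i hi
    obtain ⟨a, b, c, h1, h2, h3, h4, h5, h6, hsum⟩ := others i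
    have hs := hsum (fun i => q - (N i).card)
    have hb := hP V q X Y N M hS i a b c h1 h2 h3 h4 h5 h6
    rw [hs] at hi
    exact hb.trans (F3 q _ _ _ hq (s1 a) (s1 b) (s1 c) (by omega))
  · intro i hq2 hi
    obtain ⟨a, b, c, h1, h2, h3, h4, h5, h6, hsum⟩ := others i
    have hs := hsum (fun i => q - (N i).card)
    have hb := hP V q X Y N M hS i a b c h1 h2 h3 h4 h5 h6
    have ha := s1 a
    have hb' := s1 b
    have hc := s1 c
    rw [hs] at hi
    have e1 : q - (N a).card = 1 := by omega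
    have e2 : q - (N b).card = 1 := by omega
    have e3 : q - (N c).card = 1 := by omega
    rw [e1, e2, e3, hq2] at hb
    rw [hq2]
    refine hb.trans ?_
    unfold pi3
    norm_num
  · exact fun hu hE => hG V q X Y N M hS (fun i => q - (N i).card) _ (fun _ => rfl) rfl hu hE
  · exact hH V q X Y N M hq hS (fun i => q - (N i).card) _ (fun _ => rfl) rfl

end Pool.Agent.N917.K4
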