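import Pool.Agent.N917.K4.Stm2

/-!
Project K4 (helper917), part MAX (helper424).
-/

namespace Pool.Agent.N917.K4

open Finset
open Pool.Agent.Results.MP_76b19e_co.ForcedCliques

namespace MAX

variable {V : Type} [DecidableEq V] (G : SimpleGraph V) [DecidableRel G.Adj]

theorem miss_le (X S : Finset V) : (miss G X S).card ≤ ∑ s ∈ S, nn G X s := by
  have : miss G X S = S.biUnion fun s => X.filter (fun w => ¬ G.Adj s w) := by
    ext w
    simp only [mem_miss, mem_biUnion, mem_filter]
    constructor
    · rintro ⟨h1, s, h2, h3⟩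
      exact ⟨s, h2, h1, h3⟩
    · rintro ⟨s, h2, h1, h3⟩
      exact ⟨h1, s, h2, h3⟩
  rw [this]
  exact card_biUnion_le

theorem card_cnb1 (X : Finset V) (a : V) : (cnb G X {a}).card + nn G X a = X.card := by
  have h1 := card_nb G X a
  have h2 : cnb G X {a} = X.filter (fun w => G.Adj a w) := by
    ext w; simp [cnb]
  rw [h2]
  exact h1

theorem card_cnb2 (X : Finset V) {a b : V} (hab : a ≠ b) :
    X.card ≤ (cnb G X {a, b}).card + nn G X a + nn G X b := by
  have h1 := card_cnb_add_miss G X {a, b}
  have h2 := miss_le G X {a, b}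
  rw [sum_pair hab] at h2
  omega

theorem card_cnb3 (X : Finset V) {a b c : V} (hab : a ≠ b) (hac : a ≠ c) (hbc : b ≠ c) :
    X.card ≤ (cnb G X {a, b, c}).card + nn G X a + nn G X b + nn G X c := by
  have h1 := card_cnb_add_miss G X {a, b, c}
  have h2 := miss_le G X {a, b, c}
  rw [sum_insert (by simp [hab, hac]), sum_pair hbc] at h2
  omega

theorem nn_union {X Y : Finset V} (h : Disjoint X Y) (a : V) :
    nn G (X ∪ Y) a = nn G X a + nn G Y a := by
  unfold nn
  rw [filter_union, card_union_of_disjoint]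
  exact disjoint_filter_filter h

theorem term_le {q d1 d2 x y : ℕ} (h1 : d1 = q + 1 + x) (h2 : 1 + x + y ≤ d2) :
    1 / ((d1 : ℝ) * d2) ≤ 1 / ((q : ℝ) + 1 + x) / (1 + x + y) := by
  rw [div_div, h1]
  have h3 : (1 : ℝ) + x + y ≤ d2 := by exact_mod_cast h2
  push_cast
  apply one_div_le_one_div_of_le
  · positivity
  · apply mul_le_mul_of_nonneg_left h3
    positivity

end MAX

theorem t_MAX : S_F1 → S_MAX := by
  classical
  intro hF V _ G _ q X Y hXY hX hY hn S hS h0
  rw [mem_cl] at hS
  obtain ⟨hSX, hSc⟩ := hS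
  obtain ⟨a, b, c, hab, hac, hbc, rfl⟩ := card_eq_three.1 hSc.2
  have ha : a ∈ X := hSX (by simp)
  have hb : b ∈ X := hSX (by simp)
  have hc : c ∈ X := hSX (by simp)
  have na := hn a ha
  have nb := hn b hb
  have nc := hn c hc
  rw [MAX.nn_union G hXY] at na nb nc
  have X3 := MAX.card_cnb3 G X hab hac hbc
  have Y3 := MAX.card_cnb3 G Y hab hac hbc
  obtain ⟨x, hx⟩ : ∃ x, nn G X a + x = q := ⟨q - nn G X a, by omega⟩
  obtain ⟨y, hy⟩ : ∃ y, nn G X b + y = q := ⟨q - nn G X b, by omega⟩
  obtain ⟨z, hz⟩ : ∃ z, nn G X c + z = q := ⟨q - nn G X c, by omega⟩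
  have da := MAX.card_cnb1 G X a
  have db := MAX.card_cnb1 G X b
  have dc := MAX.card_cnb1 G X c
  have dab := MAX.card_cnb2 G X hab
  have dac := MAX.card_cnb2 G X hac
  have dbc := MAX.card_cnb2 G X hbc
  have hF' := hF q x y z (by omega)
  have hle : (q : ℝ) - (x + y + z) ≤ (cnb G Y {a, b, c}).card := by
    have : q ≤ (cnb G Y {a, b, c}).card + (x + y + z) := by omega
    have h' : (q : ℝ) ≤ (cnb G Y {a, b, c}).card + (x + y + z) := by exact_mod_cast this
    linarith
  refine le_trans ?_ (hF'.trans hle)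
  unfold tw pi3
  apply mul_le_mul_of_nonneg_left _ (by positivity)
  have s1 : ∑ s ∈ ({a, b, c} : Finset V), ∑ t ∈ ({a, b, c} : Finset V).erase s,
      1 / (((cnb G X {s}).card : ℝ) * (cnb G X {s, t}).card) =
      (1 / (((cnb G X {a}).card : ℝ) * (cnb G X {a, b}).card) +
        1 / (((cnb G X {a}).card : ℝ) * (cnb G X {a, c}).card)) +
      ((1 / (((cnb G X {b}).card : ℝ) * (cnb G X {a, b}).card) +
        1 / (((cnb G X {b}).card : ℝ) * (cnb G X {b, c}).card)) +
      (1 / (((cnb G X {c}).card : ℝ) * (cnb G X {a, c}).card) +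
        1 / (((cnb G X {c}).card : ℝ) * (cnb G X {b, c}).card))) := by
    have ea : ({a, b, c} : Finset V).erase a = {b, c} := by
      ext w; simp only [mem_erase, mem_insert, mem_singleton]
      constructor
      · rintro ⟨h1, h2 | h2 | h2⟩
        · exact absurd h2 h1
        · exact Or.inl h2
        · exact Or.inr h2
      · rintro (rfl | rfl)
        · exact ⟨hab.symm, by simp⟩
        · exact ⟨hac.symm, by simp⟩
    have eb : ({a, b, c} : Finset V).erase b = {a, c} := by
      ext w; simp only [mem_erase, mem_insert, mem_singleton]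
      constructor
      · rintro ⟨h1, h2 | h2 | h2⟩
        · exact Or.inl h2
        · exact absurd h2 h1
        · exact Or.inr h2
      · rintro (rfl | rfl)
        · exact ⟨hab, by simp⟩
        · exact ⟨hbc.symm, by simp⟩
    have ec : ({a, b, c} : Finset V).erase c = {a, b} := by
      ext w; simp only [mem_erase, mem_insert, mem_singleton]
      constructor
      · rintro ⟨h1, h2 | h2 | h2⟩
        · exact Or.inl h2
        · exact Or.inr h2
        · exact absurd h2 h1
      · rintro (rfl | rfl)
        · exact ⟨hac, by simp⟩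
        · exact ⟨hbc, by simp⟩
    rw [sum_insert (by simp [hab, hac]), sum_pair hbc, ea, eb, ec, sum_pair hbc, sum_pair hac,
      sum_pair hab, Finset.pair_comm b a, Finset.pair_comm c a, Finset.pair_comm c b]
  rw [s1]
  have t1 := MAX.term_le (q := q) (d1 := (cnb G X {a}).card) (d2 := (cnb G X {a, b}).card) (x := x)
    (y := y) (by omega) (by omega)
  have t2 := MAX.term_le (q := q) (d1 := (cnb G X {a}).card) (d2 := (cnb G X {a, c}).card) (x := x)
    (y := z) (by omega) (by omega)
  have t3 := MAX.term_le (q := q) (d1 := (cnb G X {b}).card) (d2 := (cnb G X {a, b}).card) (x := y)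
    (y := x) (by omega) (by omega)
  have t4 := MAX.term_le (q := q) (d1 := (cnb G X {b}).card) (d2 := (cnb G X {b, c}).card) (x := y)
    (y := z) (by omega) (by omega)
  have t5 := MAX.term_le (q := q) (d1 := (cnb G X {c}).card) (d2 := (cnb G X {a, c}).card) (x := z)
    (y := x) (by omega) (by omega)
  have t6 := MAX.term_le (q := q) (d1 := (cnb G X {c}).card) (d2 := (cnb G X {b, c}).card) (x := z)
    (y := y) (by omega) (by omega)
  rw [show (1 : ℝ) + y + x = 1 + x + y by ring] at t3
  rw [show (1 : ℝ) + z + x = 1 + x + z by ring] at t5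
  rw [show (1 : ℝ) + z + y = 1 + y + z by ring] at t6
  rw [add_div, add_div, add_div]
  linarith

end Pool.Agent.N917.K4
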