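import Pool.Agent.N917.K4.Stm2

/-!
Project K4 (helper917), part MOVE (helper424).
-/

namespace Pool.Agent.N917.K4

open Finset
open Pool.Agent.Results.MP_76b19e_co.ForcedCliques

theorem t_MOVE : S_MOVE := by
  classical
  intro V _ G _ X F
  have h1 : ∀ S ∈ (cl G X 3).filter (fun S => (cnb G X S).card ≠ 0),
      F S = ∑ x ∈ cnb G X S, F S / (cnb G X S).card := by
    intro S hS
    rw [mem_filter] at hS
    rw [sum_const, nsmul_eq_mul]
    have : ((cnb G X S).card : ℝ) ≠ 0 := by exact_mod_cast hS.2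
    field_simp
  rw [sum_congr rfl h1, Finset.sum_sigma', Finset.sum_sigma']
  have hn : ∀ S : Finset V, ∀ x ∈ cnb G X S, x ∉ S := by
    intro S x hx hxS
    exact G.loopless.irrefl x (((mem_cnb G).1 hx).2 x hxS)
  refine Finset.sum_bij' (fun a _ => ⟨insert a.2 a.1, a.2⟩) (fun a _ => ⟨a.1.erase a.2, a.2⟩)
    ?_ ?_ ?_ ?_ ?_
  · rintro ⟨S, x⟩ ha
    simp only [mem_sigma, mem_filter] at ha
    simp only [mem_sigma]
    obtain ⟨⟨hS, -⟩, hx⟩ := ha
    rw [mem_cl] at hS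
    refine ⟨(mem_cl G).2 ⟨?_, ?_⟩, mem_insert_self _ _⟩
    · exact insert_subset ((mem_cnb G).1 hx).1 hS.1
    · exact hS.2.insert fun b hb => (((mem_cnb G).1 hx).2 b hb).symm
  · rintro ⟨K, x⟩ ha
    simp only [mem_sigma] at ha
    simp only [mem_sigma, mem_filter]
    obtain ⟨hK, hx⟩ := ha
    rw [mem_cl] at hK
    have hc : x ∈ cnb G X (K.erase x) := by
      rw [mem_cnb]
      refine ⟨hK.1 hx, fun s hs => ?_⟩
      rw [mem_erase] at hs
      exact hK.2.1 hs.2 hx hs.1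
    refine ⟨⟨(mem_cl G).2 ⟨(erase_subset _ _).trans hK.1, ?_⟩, ?_⟩, hc⟩
    · exact hK.2.erase_of_mem hx
    · exact (card_pos.2 ⟨x, hc⟩).ne'
  · rintro ⟨S, x⟩ ha
    simp only [mem_sigma, mem_filter] at ha
    simp only [erase_insert (hn S x ha.2)]
  · rintro ⟨K, x⟩ ha
    simp only [mem_sigma] at ha
    simp only [insert_erase ha.2]
  · rintro ⟨S, x⟩ ha
    simp only [mem_sigma, mem_filter] at ha
    simp only [erase_insert (hn S x ha.2)]

end Pool.Agent.N917.K4
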