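import Pool.Agent.Results.MP_76b19e_co.ForcedCliques

/-!
Project K4 (helper917): the exact minimum number of copies of `K_4` (case `r = 3`) for
MP_76b19e_co.  Statements of the parts.
-/

namespace Pool.Agent.N917.K4

open Finset

/-! ### Real inequalities -/

/-- The upper bound for the weight of a triangle. -/
noncomputable def pi3 (q a b c : ℕ) : ℝ :=
  (q : ℝ) ^ 2 / (2 * q + 1) *
    ((1 / ((q : ℝ) + 1 + a) + 1 / ((q : ℝ) + 1 + b)) / (1 + a + b)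
    + (1 / ((q : ℝ) + 1 + a) + 1 / ((q : ℝ) + 1 + c)) / (1 + a + c)
    + (1 / ((q : ℝ) + 1 + b) + 1 / ((q : ℝ) + 1 + c)) / (1 + b + c))

def S_F1 : Prop := ∀ q a b c : ℕ, a + b + c + 1 ≤ q →
  pi3 q a b c ≤ (q : ℝ) - (a + b + c)

def S_F2 : Prop := ∀ q a b c : ℕ, 2 ≤ q → a + 1 ≤ q → b + 1 ≤ q → c + 1 ≤ q →
  q ≤ a + b + c → pi3 q a b c ≤ ((q : ℝ) + 2) / (2 * (q + 1))

def S_F3 : Prop := ∀ q a b c : ℕ, 2 ≤ q → a + 1 ≤ q → b + 1 ≤ q → c + 1 ≤ q →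
  q + 1 ≤ a + b + c → pi3 q a b c ≤ ((q : ℝ) + 3) / (3 * (q + 1))

/-! ### The numeric case analysis -/

/-- All the facts about a `4`-clique of `X` that are used. -/
structure Fact (q E un : ℕ) (e α β : Fin 4 → ℕ) (p : Fin 4 → ℝ) : Prop where
  hE : E = ∑ i, e i
  he : ∀ i, e i + 1 ≤ q
  h1 : ∀ i, E + 1 ≤ q + e i → p i ≤ (q : ℝ) + e i - E
  h2 : ∀ i, q + e i ≤ E → p i ≤ ((q : ℝ) + 2) / (2 * (q + 1))
  h3 : ∀ i, q + 1 + e i ≤ E → p i ≤ ((q : ℝ) + 3) / (3 * (q + 1))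
  h3' : ∀ i, q = 2 → 3 + e i ≤ E → p i ≤ 1 / 2
  hα : ∀ i, un + 1 ≤ α i
  hα1 : ∀ i, E + 1 ≤ q + e i + α i
  hα2 : ∀ i, α i + e i ≤ un + q
  hβ : ∀ i, q + e i ≤ E + β i
  s4 : (∀ i, β i = 0) → 2 * q ≤ E
  s3 : ∀ i, (∀ j, j ≠ i → β j = 0) → β i ≤ e i ∧ 2 * q ≤ E + β i
  s2 : ∀ i j k, i ≠ j → k ≠ i → k ≠ j → β i = 0 → β j = 0 →
    q + e i = E → q + e j = E → β k = e k
  g : un = 0 → E + 1 = 2 * q →
    (∀ i, α i + e i = q) ∧ ∑ i, p i / α i = (q : ℝ) ^ 2 / ∏ i, ((q : ℝ) - e i)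
  h0 : ∀ i j, i ≠ j → β i = 0 → β j = 0 → α i = 1 → α j = 1 → e i = 0 → e j = 0 →
    E = q → ∑ i, (p i - β i) / α i ≤ 1

def S_NUM : Prop := ∀ (q E un : ℕ) (e α β : Fin 4 → ℕ) (p : Fin 4 → ℝ), 2 ≤ q →
  Fact q E un e α β p → ∑ i, (p i - β i) / α i ≤ 1

/-! ### Set systems -/

section sets

variable {V : Type*} [DecidableEq V]

/-- number of elements of `X` in none of the `N j`, `j ≠ i` -/
def al (X : Finset V) (N : Fin 4 → Finset V) (i : Fin 4) : ℕ :=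
  (X.filter (fun w => ∀ j, j ≠ i → w ∉ N j)).card

/-- number of elements of `X` in none of the `N j` -/
def un (X : Finset V) (N : Fin 4 → Finset V) : ℕ :=
  (X.filter (fun w => ∀ j, w ∉ N j)).card

def d1 (X : Finset V) (N : Fin 4 → Finset V) (j : Fin 4) : ℕ :=
  (X.filter (fun w => w ∉ N j)).card

def d2 (X : Finset V) (N : Fin 4 → Finset V) (j k : Fin 4) : ℕ :=
  (X.filter (fun w => w ∉ N j ∧ w ∉ N k)).card

/-- weight of the triangle which omits `i` -/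
noncomputable def pp (q : ℕ) (X : Finset V) (N : Fin 4 → Finset V) (i : Fin 4) : ℝ :=
  (q : ℝ) ^ 2 / (2 * q + 1) *
    ∑ j ∈ univ.erase i, ∑ k ∈ (univ.erase i).erase j, 1 / ((d1 X N j : ℝ) * d2 X N j k)

structure Sys (q : ℕ) (X Y : Finset V) (N M : Fin 4 → Finset V) : Prop where
  hX : X.card = 2 * q + 1
  hY : Y.card = q
  hN : ∀ i, N i ⊆ X
  hM : ∀ i, M i ⊆ Y
  hc : ∀ i, (N i).card + (M i).card ≤ q
  hx : ∀ i, ∃ x ∈ N i, ∀ j, j ≠ i → x ∉ N j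

end sets

/-- the weight of a triangle is at most `pi3` -/
def S_P : Prop := ∀ (V : Type) [DecidableEq V] (q : ℕ) (X Y : Finset V)
  (N M : Fin 4 → Finset V), Sys q X Y N M → ∀ i a b c : Fin 4, i ≠ a → i ≠ b → i ≠ c →
  a ≠ b → a ≠ c → b ≠ c →
  pp q X N i ≤ pi3 q (q - (N a).card) (q - (N b).card) (q - (N c).card)

/-- the counting facts -/
def S_SET : Prop := ∀ (V : Type) [DecidableEq V] (q : ℕ) (X Y : Finset V)
  (N M : Fin 4 → Finset V), Sys q X Y N M → ∀ (e : Fin 4 → ℕ) (E : ℕ),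
  (∀ i, e i = q - (N i).card) → E = ∑ i, e i →
  (∀ i, e i + 1 ≤ q) ∧
  (∀ i, un X N + 1 ≤ al X N i) ∧
  (∀ i, E + 1 ≤ q + e i + al X N i) ∧
  (∀ i, al X N i + e i ≤ un X N + q) ∧
  (∀ i, q + e i ≤ E + al Y M i) ∧
  ((∀ i, al Y M i = 0) → 2 * q ≤ E) ∧
  (∀ i, (∀ j, j ≠ i → al Y M j = 0) → al Y M i ≤ e i ∧ 2 * q ≤ E + al Y M i) ∧
  (∀ i j k, i ≠ j → k ≠ i → k ≠ j → al Y M i = 0 → al Y M j = 0 →
    q + e i = E → q + e j = E → al Y M k = e k)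

/-- the exact case -/
def S_G : Prop := ∀ (V : Type) [DecidableEq V] (q : ℕ) (X Y : Finset V)
  (N M : Fin 4 → Finset V), Sys q X Y N M → ∀ (e : Fin 4 → ℕ) (E : ℕ),
  (∀ i, e i = q - (N i).card) → E = ∑ i, e i → un X N = 0 → E + 1 = 2 * q →
  (∀ i, al X N i + e i = q) ∧
    ∑ i, pp q X N i / al X N i = (q : ℝ) ^ 2 / ∏ i, ((q : ℝ) - e i)

/-- the case of two full, nearly equal sets -/
def S_H0 : Prop := ∀ (V : Type) [DecidableEq V] (q : ℕ) (X Y : Finset V)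
  (N M : Fin 4 → Finset V), 2 ≤ q → Sys q X Y N M → ∀ (e : Fin 4 → ℕ) (E : ℕ),
  (∀ i, e i = q - (N i).card) → E = ∑ i, e i →
  (∀ i j, i ≠ j → al Y M i = 0 → al Y M j = 0 → al X N i = 1 → al X N j = 1 →
    e i = 0 → e j = 0 → E = q → ∑ i, (pp q X N i - al Y M i) / al X N i ≤ 1)

/-- the local inequality -/
def S_LOC : Prop := ∀ (V : Type) [DecidableEq V] (q : ℕ) (X Y : Finset V)
  (N M : Fin 4 → Finset V), 2 ≤ q → Sys q X Y N M →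
  ∑ i, (pp q X N i - al Y M i) / al X N i ≤ 1

end Pool.Agent.N917.K4
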