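import Mathlib
import Pool.Agent.N917.K4.Stm

/-!
Project K4, part NUM: the numeric case analysis.
-/

set_option autoImplicit false

namespace Pool.Agent.N917.K4

open Finset

namespace NUM

theorem univ_eq : ∀ i j k l : Fin 4, i ≠ j → i ≠ k → i ≠ l → j ≠ k → j ≠ l → k ≠ l →
    (Finset.univ : Finset (Fin 4)) = {i, j, k, l} := by decide

theorem sum_eq {M : Type} [AddCommMonoid M] (f : Fin 4 → M) {i j k l : Fin 4} (h1 : i ≠ j)
    (h2 : i ≠ k) (h3 : i ≠ l) (h4 : j ≠ k) (h5 : j ≠ l) (h6 : k ≠ l) :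
    ∑ m, f m = f i + (f j + (f k + f l)) := by
  rw [univ_eq i j k l h1 h2 h3 h4 h5 h6, Finset.sum_insert (by simp [h1, h2, h3]),
    Finset.sum_insert (by simp [h4, h5]), Finset.sum_insert (by simp [h6]), Finset.sum_singleton]

theorem prod_eq {M : Type} [CommMonoid M] (f : Fin 4 → M) {i j k l : Fin 4} (h1 : i ≠ j)
    (h2 : i ≠ k) (h3 : i ≠ l) (h4 : j ≠ k) (h5 : j ≠ l) (h6 : k ≠ l) :
    ∏ m, f m = f i * (f j * (f k * f l)) := by
  rw [univ_eq i j k l h1 h2 h3 h4 h5 h6, Finset.prod_insert (by simp [h1, h2, h3]),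
    Finset.prod_insert (by simp [h4, h5]), Finset.prod_insert (by simp [h6]),
    Finset.prod_singleton]

variable {q E un : ℕ} {e α β : Fin 4 → ℕ} {p : Fin 4 → ℝ}

/-- the constant `φ` -/
noncomputable def ph (q : ℕ) : ℝ := ((q : ℝ) + 2) / (2 * (q + 1))

theorem ph_pos (q : ℕ) : 0 < ph q := by unfold ph; positivity

theorem ph_le (hq : 2 ≤ q) : 3 * ph q ≤ 2 := by
  have h : (2 : ℝ) ≤ q := by exact_mod_cast hq
  unfold ph
  rw [← mul_div_assoc, div_le_iff₀ (by positivity)]
  linarith

theorem al_pos (F : Fact q E un e α β p) (i : Fin 4) : 1 ≤ α i :=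
  le_trans (Nat.le_add_left 1 un) (F.hα i)

theorem al_pos' (F : Fact q E un e α β p) (i : Fin 4) : (1 : ℝ) ≤ α i := by
  exact_mod_cast al_pos F i

/-- the terms outside `J` are not positive -/
theorem t_neg (hq : 2 ≤ q) (F : Fact q E un e α β p) (i : Fin 4) (hb : 1 ≤ β i) :
    (p i - β i) / α i ≤ 0 := by
  have h1 : p i ≤ β i := by
    rcases Nat.lt_or_ge E (q + e i) with h | h
    · have h2 := F.h1 i h
      have h3 : (q : ℝ) + e i ≤ E + β i := by exact_mod_cast F.hβ i
      linarith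
    · have h2 : p i ≤ ph q := F.h2 i h
      have h3 := ph_le hq
      have h4 := ph_pos q
      have h5 : (1 : ℝ) ≤ β i := by exact_mod_cast hb
      linarith
  exact div_nonpos_of_nonpos_of_nonneg (by linarith) (Nat.cast_nonneg _)

/-- the terms in `J` -/
theorem t_J (F : Fact q E un e α β p) (i : Fin 4) (hb : β i = 0) (a : ℝ) (ha : 0 < a)
    (haα : a ≤ α i) : (p i - β i) / α i ≤ ph q / a := by
  have h1 : p i ≤ ph q := F.h2 i (by have := F.hβ i; omega)
  have h2 := al_pos' F i
  have h3 := ph_pos q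
  rw [hb, Nat.cast_zero, sub_zero]
  calc p i / α i ≤ ph q / α i := by gcongr
    _ ≤ ph q / a := by gcongr

theorem t_J1 (F : Fact q E un e α β p) (i : Fin 4) (hb : β i = 0) :
    (p i - β i) / α i ≤ ph q := by
  have := t_J F i hb 1 one_pos (al_pos' F i)
  rwa [div_one] at this

theorem t_J2 (F : Fact q E un e α β p) (i : Fin 4) (hb : β i = 0) (h2 : 2 ≤ α i) :
    (p i - β i) / α i ≤ ph q / 2 :=
  t_J F i hb 2 two_pos (by exact_mod_cast h2)

/-- at most one index in `J` -/
theorem case1 (hq : 2 ≤ q) (F : Fact q E un e α β p) {i j k l : Fin 4} (h1 : i ≠ j)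
    (h2 : i ≠ k) (h3 : i ≠ l) (h4 : j ≠ k) (h5 : j ≠ l) (h6 : k ≠ l)
    (bj : 1 ≤ β j) (bk : 1 ≤ β k) (bl : 1 ≤ β l) :
    ∑ m, (p m - β m) / α m ≤ 1 := by
  rw [sum_eq _ h1 h2 h3 h4 h5 h6]
  have t1 := t_neg hq F j bj
  have t2 := t_neg hq F k bk
  have t3 := t_neg hq F l bl
  have hp := ph_le hq
  have hp' := ph_pos q
  rcases Nat.eq_zero_or_pos (β i) with hi | hi
  · have := t_J1 F i hi
    linarith
  · have := t_neg hq F i hi
    linarith

theorem case2 (hq : 2 ≤ q) (F : Fact q E un e α β p) {i j k l : Fin 4} (h1 : i ≠ j)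
    (h2 : i ≠ k) (h3 : i ≠ l) (h4 : j ≠ k) (h5 : j ≠ l) (h6 : k ≠ l)
    (bi : β i = 0) (bj : β j = 0) (bk : 1 ≤ β k) (bl : 1 ≤ β l) :
    ∑ m, (p m - β m) / α m ≤ 1 := by
  have t2 := t_neg hq F k bk
  have t3 := t_neg hq F l bl
  have hp := ph_le hq
  have hp' := ph_pos q
  by_cases hi : 2 ≤ α i
  · rw [sum_eq _ h1 h2 h3 h4 h5 h6]
    have e1 := t_J2 F i bi hi
    have e2 := t_J1 F j bj
    linarith
  by_cases hj : 2 ≤ α j
  · rw [sum_eq _ h1 h2 h3 h4 h5 h6]
    have e1 := t_J1 F i bi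
    have e2 := t_J2 F j bj hj
    linarith
  have ai : α i = 1 := by have := al_pos F i; omega
  have aj : α j = 1 := by have := al_pos F j; omega
  have hun : un = 0 := by have := F.hα i; omega
  have hEi : q + e i = E := by
    have h7 := F.hα1 i
    have h8 := F.hβ i
    omega
  have hEj : q + e j = E := by
    have h7 := F.hα1 j
    have h8 := F.hβ j
    omega
  have hk : β k = e k := F.s2 i j k h1 (Ne.symm h2) (Ne.symm h4) bi bj hEi hEj
  have hl : β l = e l := F.s2 i j l h1 (Ne.symm h3) (Ne.symm h5) bi bj hEi hEj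
  by_cases he0 : e i = 0
  · exact F.h0 i j h1 bi bj ai aj he0 (by omega) (by omega)
  rw [sum_eq _ h1 h2 h3 h4 h5 h6]
  have hqr : (2 : ℝ) ≤ q := by exact_mod_cast hq
  have key : ∀ m, β m = e m → 1 ≤ β m → (p m - β m) / α m ≤
      -(((q : ℝ) / (2 * (q + 1))) / (q - 1)) := by
    intro m hm hm1
    have c1 : (q : ℝ) / (2 * (q + 1)) ≤ β m - p m := by
      rcases Nat.lt_or_ge E (q + e m) with h | h
      · have h7 := F.h1 m h
        have h8 : (q : ℝ) + e i = E := by exact_mod_cast hEi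
        have h9 : (β m : ℝ) = e m := by exact_mod_cast hm
        have h10 : (1 : ℝ) ≤ e i := by exact_mod_cast Nat.one_le_iff_ne_zero.2 he0
        have h11 : (q : ℝ) / (2 * (q + 1)) ≤ 1 := by
          rw [div_le_one (by positivity)]; linarith
        linarith
      · have h7 : p m ≤ ph q := F.h2 m h
        have h8 : (1 : ℝ) ≤ β m := by exact_mod_cast hm1
        have h9 : (q : ℝ) / (2 * (q + 1)) = 1 - ph q := by
          unfold ph; field_simp; ring
        linarith
    have c2 : (α m : ℝ) ≤ q - 1 := by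
      have h7 := F.hα2 m
      have h8 : α m + 1 ≤ q := by omega
      have h9 : (α m : ℝ) + 1 ≤ q := by exact_mod_cast h8
      linarith
    have c3 := al_pos' F m
    have c4 : (p m - β m) / α m = -((β m - p m) / α m) := by ring
    rw [c4]
    apply neg_le_neg
    have c5 : 0 ≤ (q : ℝ) / (2 * (q + 1)) := by positivity
    calc (q : ℝ) / (2 * (q + 1)) / (q - 1) ≤ (q : ℝ) / (2 * (q + 1)) / α m := by
          gcongr
      _ ≤ (β m - p m) / α m := by gcongr
  have k1 := key k hk bk
  have k2 := key l hl bl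
  have e1 := t_J1 F i bi
  have e2 := t_J1 F j bj
  have fin : 2 * ph q ≤ 1 + 2 * (((q : ℝ) / (2 * (q + 1))) / (q - 1)) := by
    unfold ph
    have hq1 : (0 : ℝ) < q - 1 := by linarith
    have hq2 : (0 : ℝ) < q + 1 := by linarith
    rw [div_div, ← mul_div_assoc, ← mul_div_assoc, div_le_iff₀ (by positivity)]
    have : (1 + 2 * (q : ℝ) / (2 * (q + 1) * (q - 1))) * (2 * (q + 1)) =
        2 * (q + 1) + 2 * q / (q - 1) := by
      field_simp
    rw [this]
    have h7 : (2 : ℝ) ≤ 2 * q / (q - 1) := by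
      rw [le_div_iff₀ hq1]; linarith
    linarith
  linarith

theorem prod_ge (a b c d q : ℕ) (ha : 1 ≤ a) (hb : 1 ≤ b) (hc : 1 ≤ c) (hd : 1 ≤ d)
    (ha' : a ≤ q) (hb' : b ≤ q) (hc' : c ≤ q) (hd' : d ≤ q) (hs : a + b + c + d = 2 * q + 1) :
    (q : ℤ) * (q - 1) ≤ a * b * (c * d) := by
  zify at ha hb hc hd ha' hb' hc' hd' hs
  have hab : (a : ℤ) + b - 1 ≤ a * b := by nlinarith
  have hcd : (c : ℤ) + d - 1 ≤ c * d := by nlinarith
  have hab' : (q : ℤ) * (a + b - q) ≤ a * b := by nlinarith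
  have hcd' : (q : ℤ) * (c + d - q) ≤ c * d := by nlinarith
  rcases le_or_gt ((a : ℤ) + b - 1) q with h1 | h1
  · rcases le_or_gt ((c : ℤ) + d - 1) q with h2 | h2
    · calc (q : ℤ) * (q - 1) ≤ ((a : ℤ) + b - 1) * (c + d - 1) := by nlinarith
        _ ≤ a * b * (c * d) := mul_le_mul hab hcd (by linarith) (by nlinarith)
    · calc (q : ℤ) * (q - 1) ≤ ((a : ℤ) + b - 1) * (q * (c + d - q)) := by
            have : (q : ℤ) - 1 ≤ ((a : ℤ) + b - 1) * (c + d - q) := by nlinarith
            nlinarith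
        _ ≤ a * b * (c * d) := mul_le_mul hab hcd' (by nlinarith) (by nlinarith)
  · calc (q : ℤ) * (q - 1) ≤ (q * (a + b - q)) * ((c : ℤ) + d - 1) := by
            have : (q : ℤ) - 1 ≤ ((a : ℤ) + b - q) * (c + d - 1) := by nlinarith
            nlinarith
      _ ≤ a * b * (c * d) := mul_le_mul hab' hcd (by linarith) (by nlinarith)

/-- convexity -/
theorem inv_add (x y : ℝ) (hx : 1 ≤ x) (hy : 1 ≤ y) : 1 / x + 1 / y ≤ 1 + 1 / (x + y - 1) := by
  have h1 : 0 < x := by linarith
  have h2 : 0 < y := by linarith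
  have h3 : 0 < x + y - 1 := by linarith
  rw [div_add_div _ _ h1.ne' h2.ne', ← sub_nonneg]
  have : 1 + 1 / (x + y - 1) - (1 * y + x * 1) / (x * y) =
      (x + y) * ((x - 1) * (y - 1)) / ((x + y - 1) * (x * y)) := by
    field_simp; ring
  rw [this]
  have h4 : 0 ≤ (x - 1) * (y - 1) := mul_nonneg (by linarith) (by linarith)
  positivity

theorem case3 (hq : 2 ≤ q) (F : Fact q E un e α β p) {i j k l : Fin 4} (h1 : i ≠ j)
    (h2 : i ≠ k) (h3 : i ≠ l) (h4 : j ≠ k) (h5 : j ≠ l) (h6 : k ≠ l)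
    (bi : β i = 0) (bj : β j = 0) (bk : β k = 0) (bl : 1 ≤ β l) :
    ∑ m, (p m - β m) / α m ≤ 1 := by
  have t3 := t_neg hq F l bl
  have hp := ph_le hq
  have hp' := ph_pos q
  have hE : E = e i + (e j + (e k + e l)) := by rw [F.hE, sum_eq _ h1 h2 h3 h4 h5 h6]
  obtain ⟨s1, s2⟩ := F.s3 l (by
    intro m hm
    have hmem : m ∈ (Finset.univ : Finset (Fin 4)) := Finset.mem_univ m
    rw [univ_eq i j k l h1 h2 h3 h4 h5 h6] at hmem
    simp only [Finset.mem_insert, Finset.mem_singleton] at hmem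
    rcases hmem with rfl | rfl | rfl | rfl
    · exact bi
    · exact bj
    · exact bk
    · exact absurd rfl hm)
  have all2 : (2 ≤ α i ∧ 2 ≤ α j ∧ 2 ≤ α k) → ∑ m, (p m - β m) / α m ≤ 1 := by
    rintro ⟨a1, a2, a3⟩
    rw [sum_eq _ h1 h2 h3 h4 h5 h6]
    have e1 := t_J2 F i bi a1
    have e2 := t_J2 F j bj a2
    have e3 := t_J2 F k bk a3
    linarith
  rcases Nat.eq_zero_or_pos un with hun | hun
  swap
  · apply all2
    have := F.hα i
    have := F.hα j
    have := F.hα k
    omega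
  rcases Nat.lt_or_ge E (2 * q) with hE2 | hE2
  swap
  · apply all2
    have := F.hα1 i
    have := F.hα1 j
    have := F.hα1 k
    have := F.he i
    have := F.he j
    have := F.he k
    omega
  have hqr : (2 : ℝ) ≤ q := by exact_mod_cast hq
  have he1 : 1 ≤ e l := by omega
  rcases Nat.lt_or_ge (E + 1) (2 * q) with hE3 | hE3
  swap
  · -- E = 2 q - 1
    obtain ⟨g1, g2⟩ := F.g hun (by omega)
    have hsum : ∑ m, (p m - β m) / α m = ∑ m, p m / α m - β l / α l := by
      rw [sum_eq _ h1 h2 h3 h4 h5 h6, sum_eq (fun m => p m / (α m : ℝ)) h1 h2 h3 h4 h5 h6, bi, bj,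
        bk]
      simp only [Nat.cast_zero, sub_zero, sub_div]
      ring
    rw [hsum, g2]
    have gα : ∀ m, (q : ℝ) - e m = α m := by
      intro m
      have : (α m : ℝ) + e m = q := by exact_mod_cast g1 m
      linarith
    have hpr : ∏ m, ((q : ℝ) - e m) = α i * α j * (α k * α l) := by
      rw [prod_eq _ h1 h2 h3 h4 h5 h6, gα, gα, gα, gα]; ring
    rw [hpr]
    have hge := prod_ge (α i) (α j) (α k) (α l) q (al_pos F i) (al_pos F j) (al_pos F k)
      (al_pos F l) (by have := g1 i; omega) (by have := g1 j; omega) (by have := g1 k; omega)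
      (by have := g1 l; omega)
      (by have := g1 i; have := g1 j; have := g1 k; have := g1 l; omega)
    have hge' : (q : ℝ) * (q - 1) ≤ α i * α j * (α k * α l) := by exact_mod_cast hge
    have hq1 : (0 : ℝ) < q - 1 := by linarith
    have hq0 : (0 : ℝ) < q := by linarith
    have u1 : (q : ℝ) ^ 2 / (α i * α j * (α k * α l)) ≤ (q : ℝ) ^ 2 / (q * (q - 1)) := by
      gcongr
    have u2 : (q : ℝ) ^ 2 / (q * (q - 1)) = q / (q - 1) := by
      field_simp
    have u3 : 1 / ((q : ℝ) - 1) ≤ β l / α l := by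
      have v1 : (α l : ℝ) ≤ q - 1 := by
        have v2 : α l + 1 ≤ q := by have := g1 l; omega
        have v3 : (α l : ℝ) + 1 ≤ q := by exact_mod_cast v2
        linarith
      have v4 : (1 : ℝ) ≤ β l := by exact_mod_cast bl
      have v5 := al_pos' F l
      calc 1 / ((q : ℝ) - 1) ≤ 1 / α l := by gcongr
        _ ≤ β l / α l := by gcongr
    have u4 : (q : ℝ) / (q - 1) = 1 + 1 / (q - 1) := by field_simp; ring
    linarith
  -- E ≤ 2 q - 2
  rw [sum_eq _ h1 h2 h3 h4 h5 h6]
  rcases Nat.lt_or_ge E (q + e l) with hE4 | hE4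
  · have w1 := F.h1 l hE4
    have w2 := F.hα2 l
    have w3 : (α l : ℝ) + e l ≤ q := by
      have : α l + e l ≤ q := by omega
      exact_mod_cast this
    have w4 : 2 * (q : ℝ) ≤ E + β l := by exact_mod_cast s2
    have w5 := al_pos' F l
    have w6 : (p l - β l) / α l ≤ -1 := by
      rw [div_le_iff₀ (by linarith)]
      linarith
    have e1 := t_J1 F i bi
    have e2 := t_J1 F j bj
    have e3 := t_J1 F k bk
    linarith
  · -- the last case
    have w1 : p l ≤ ph q := F.h2 l hE4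
    obtain ⟨lam, hlam⟩ : ∃ lam, lam + β l = q := ⟨q - β l, by have := F.he l; omega⟩
    have hlam1 : 1 ≤ lam := by have := F.he l; omega
    have hd2 : 2 ≤ β l := by omega
    have w2 : α l ≤ lam := by have := F.hα2 l; omega
    have w2' : (α l : ℝ) ≤ lam := by exact_mod_cast w2
    have w3 : (lam : ℝ) + β l = q := by exact_mod_cast hlam
    have w4 := al_pos' F l
    have w5 : (2 : ℝ) ≤ β l := by exact_mod_cast hd2
    have hp1 : ph q ≤ 1 := by linarith
    have tl : (p l - β l) / α l ≤ -((β l - ph q) / lam) := by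
      have c4 : (p l - β l) / α l = -((β l - p l) / α l) := by ring
      rw [c4]
      apply neg_le_neg
      have c5 : 0 ≤ (β l : ℝ) - ph q := by linarith
      calc ((β l : ℝ) - ph q) / lam ≤ (β l - ph q) / α l := by gcongr
        _ ≤ (β l - p l) / α l := by gcongr
    -- the numbers u
    obtain ⟨ui, hui⟩ : ∃ u, u + q + e i = E + 1 := ⟨E + 1 - q - e i, by have := F.hβ i; omega⟩
    obtain ⟨uj, huj⟩ : ∃ u, u + q + e j = E + 1 := ⟨E + 1 - q - e j, by have := F.hβ j; omega⟩
    obtain ⟨uk, huk⟩ : ∃ u, u + q + e k = E + 1 := ⟨E + 1 - q - e k, by have := F.hβ k; omega⟩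
    have ui1 : 1 ≤ ui := by have := F.hβ i; omega
    have uj1 : 1 ≤ uj := by have := F.hβ j; omega
    have uk1 : 1 ≤ uk := by have := F.hβ k; omega
    have uia : ui ≤ α i := by have := F.hα1 i; omega
    have uja : uj ≤ α j := by have := F.hα1 j; omega
    have uka : uk ≤ α k := by have := F.hα1 k; omega
    have hsumu : lam + 3 ≤ ui + uj + uk := by omega
    have ui1' : (1 : ℝ) ≤ ui := by exact_mod_cast ui1
    have uj1' : (1 : ℝ) ≤ uj := by exact_mod_cast uj1
    have uk1' : (1 : ℝ) ≤ uk := by exact_mod_cast uk1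
    have e1 := t_J F i bi ui (by linarith) (by exact_mod_cast uia)
    have e2 := t_J F j bj uj (by linarith) (by exact_mod_cast uja)
    have e3 := t_J F k bk uk (by linarith) (by exact_mod_cast uka)
    have hs' : (lam : ℝ) + 3 ≤ ui + uj + uk := by exact_mod_cast hsumu
    have c1 := inv_add ui uj ui1' uj1'
    have c2 := inv_add (ui + uj - 1) uk (by linarith) uk1'
    have hlam0 : (1 : ℝ) ≤ lam := by exact_mod_cast hlam1
    have c3 : 1 / ((ui : ℝ) + uj - 1 + uk - 1) ≤ 1 / (lam + 1) := by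
      apply one_div_le_one_div_of_le (by linarith)
      linarith
    have c4 : 1 / (ui : ℝ) + 1 / uj + 1 / uk ≤ 2 + 1 / (lam + 1) := by linarith
    have c5 : ph q / ui + ph q / uj + ph q / uk ≤ ph q * (2 + 1 / (lam + 1)) := by
      have : ph q / ui + ph q / uj + ph q / uk = ph q * (1 / (ui : ℝ) + 1 / uj + 1 / uk) := by
        ring
      rw [this]
      exact mul_le_mul_of_nonneg_left c4 hp'.le
    have fin : ph q * (2 + 1 / ((lam : ℝ) + 1)) ≤ 1 + (β l - ph q) / lam := by
      have hb : (β l : ℝ) = q - lam := by linarith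
      rw [hb, ← sub_nonneg]
      have hl2 : (lam : ℝ) + 2 ≤ q := by linarith
      have hid : 1 + ((q : ℝ) - lam - ph q) / lam - ph q * (2 + 1 / ((lam : ℝ) + 1)) =
          (2 * q * (q + 1) * (lam + 1) - (q + 2) * (2 * lam ^ 2 + 4 * lam + 1)) /
            (2 * (q + 1) * lam * (lam + 1)) := by
        unfold ph
        have : (lam : ℝ) ≠ 0 := by linarith
        have : (lam : ℝ) + 1 ≠ 0 := by linarith
        have : (q : ℝ) + 1 ≠ 0 := by linarith
        field_simp
        ring
      rw [hid]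
      apply div_nonneg _ (by positivity)
      obtain ⟨m, hm⟩ : ∃ m : ℝ, (q : ℝ) = lam + 2 + m := ⟨q - lam - 2, by ring⟩
      have hm0 : 0 ≤ m := by linarith
      rw [hm]
      have : 2 * ((lam : ℝ) + 2 + m) * (lam + 2 + m + 1) * (lam + 1) -
          (lam + 2 + m + 2) * (2 * lam ^ 2 + 4 * lam + 1) =
          2 * m ^ 2 * (lam + 1) + m * (2 * lam ^ 2 + 10 * lam + 9) + (5 * lam + 8) := by ring
      rw [this]
      positivity
    linarith

theorem case4 (hq : 2 ≤ q) (F : Fact q E un e α β p) (hb : ∀ i, β i = 0) :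
    ∑ m, (p m - β m) / α m ≤ 1 := by
  have hE := F.s4 hb
  have ha : ∀ m, (2 : ℝ) ≤ α m := by
    intro m
    have : 2 ≤ α m := by have := F.hα1 m; have := F.he m; omega
    exact_mod_cast this
  rw [Fin.sum_univ_four]
  rcases Nat.lt_or_ge q 3 with h3 | h3
  · have hq2 : q = 2 := by omega
    have ht : ∀ m, (p m - β m) / α m ≤ 1 / 4 := by
      intro m
      have h5 : p m ≤ 1 / 2 := F.h3' m hq2 (by have := F.he m; omega)
      have h6 := ha m
      rw [hb m, Nat.cast_zero, sub_zero, div_le_iff₀ (by linarith)]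
      linarith
    have := ht 0
    have := ht 1
    have := ht 2
    have := ht 3
    linarith
  · have hqr : (3 : ℝ) ≤ q := by exact_mod_cast h3
    have ht : ∀ m, (p m - β m) / α m ≤ 1 / 4 := by
      intro m
      have h5 := F.h3 m (by have := F.he m; omega)
      have h6 := ha m
      have h7 : ((q : ℝ) + 3) / (3 * (q + 1)) ≤ 1 / 2 := by
        rw [div_le_iff₀ (by positivity)]
        linarith
      rw [hb m, Nat.cast_zero, sub_zero, div_le_iff₀ (by linarith)]
      linarith
    have := ht 0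
    have := ht 1
    have := ht 2
    have := ht 3
    linarith

end NUM

open NUM in
theorem t_NUM : S_NUM := by
  intro q E un e α β p hq F
  by_cases b0 : β 0 = 0 <;> by_cases b1 : β 1 = 0 <;> by_cases b2 : β 2 = 0 <;>
    by_cases b3 : β 3 = 0
  · exact case4 hq F (by intro i; fin_cases i <;> assumption)
  · exact case3 hq F (i := 0) (j := 1) (k := 2) (l := 3) (by decide) (by decide) (by decide)
      (by decide) (by decide) (by decide) b0 b1 b2 (Nat.one_le_iff_ne_zero.2 b3)
  · exact case3 hq F (i := 0) (j := 1) (k := 3) (l := 2) (by decide) (by decide) (by decide)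
      (by decide) (by decide) (by decide) b0 b1 b3 (Nat.one_le_iff_ne_zero.2 b2)
  · exact case2 hq F (i := 0) (j := 1) (k := 2) (l := 3) (by decide) (by decide) (by decide)
      (by decide) (by decide) (by decide) b0 b1 (Nat.one_le_iff_ne_zero.2 b2)
      (Nat.one_le_iff_ne_zero.2 b3)
  · exact case3 hq F (i := 0) (j := 2) (k := 3) (l := 1) (by decide) (by decide) (by decide)
      (by decide) (by decide) (by decide) b0 b2 b3 (Nat.one_le_iff_ne_zero.2 b1)
  · exact case2 hq F (i := 0) (j := 2) (k := 1) (l := 3) (by decide) (by decide) (by decide)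
      (by decide) (by decide) (by decide) b0 b2 (Nat.one_le_iff_ne_zero.2 b1)
      (Nat.one_le_iff_ne_zero.2 b3)
  · exact case2 hq F (i := 0) (j := 3) (k := 1) (l := 2) (by decide) (by decide) (by decide)
      (by decide) (by decide) (by decide) b0 b3 (Nat.one_le_iff_ne_zero.2 b1)
      (Nat.one_le_iff_ne_zero.2 b2)
  · exact case1 hq F (i := 0) (j := 1) (k := 2) (l := 3) (by decide) (by decide) (by decide)
      (by decide) (by decide) (by decide) (Nat.one_le_iff_ne_zero.2 b1)
      (Nat.one_le_iff_ne_zero.2 b2) (Nat.one_le_iff_ne_zero.2 b3)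
  · exact case3 hq F (i := 1) (j := 2) (k := 3) (l := 0) (by decide) (by decide) (by decide)
      (by decide) (by decide) (by decide) b1 b2 b3 (Nat.one_le_iff_ne_zero.2 b0)
  · exact case2 hq F (i := 1) (j := 2) (k := 0) (l := 3) (by decide) (by decide) (by decide)
      (by decide) (by decide) (by decide) b1 b2 (Nat.one_le_iff_ne_zero.2 b0)
      (Nat.one_le_iff_ne_zero.2 b3)
  · exact case2 hq F (i := 1) (j := 3) (k := 0) (l := 2) (by decide) (by decide) (by decide)
      (by decide) (by decide) (by decide) b1 b3 (Nat.one_le_iff_ne_zero.2 b0)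
      (Nat.one_le_iff_ne_zero.2 b2)
  · exact case1 hq F (i := 1) (j := 0) (k := 2) (l := 3) (by decide) (by decide) (by decide)
      (by decide) (by decide) (by decide) (Nat.one_le_iff_ne_zero.2 b0)
      (Nat.one_le_iff_ne_zero.2 b2) (Nat.one_le_iff_ne_zero.2 b3)
  · exact case2 hq F (i := 2) (j := 3) (k := 0) (l := 1) (by decide) (by decide) (by decide)
      (by decide) (by decide) (by decide) b2 b3 (Nat.one_le_iff_ne_zero.2 b0)
      (Nat.one_le_iff_ne_zero.2 b1)
  · exact case1 hq F (i := 2) (j := 0) (k := 1) (l := 3) (by decide) (by decide) (by decide)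
      (by decide) (by decide) (by decide) (Nat.one_le_iff_ne_zero.2 b0)
      (Nat.one_le_iff_ne_zero.2 b1) (Nat.one_le_iff_ne_zero.2 b3)
  · exact case1 hq F (i := 3) (j := 0) (k := 1) (l := 2) (by decide) (by decide) (by decide)
      (by decide) (by decide) (by decide) (Nat.one_le_iff_ne_zero.2 b0)
      (Nat.one_le_iff_ne_zero.2 b1) (Nat.one_le_iff_ne_zero.2 b2)
  · exact case1 hq F (i := 3) (j := 0) (k := 1) (l := 2) (by decide) (by decide) (by decide)
      (by decide) (by decide) (by decide) (Nat.one_le_iff_ne_zero.2 b0)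
      (Nat.one_le_iff_ne_zero.2 b1) (Nat.one_le_iff_ne_zero.2 b2)

end Pool.Agent.N917.K4
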