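import Pool.Agent.N917.K4.Stm

/-!
Project K4 (helper917), part P (helper771): the weight of a triangle is at most `pi3`.
-/

namespace Pool.Agent.N917.K4

open Finset

namespace P

theorem erase1 : ∀ i a b c : Fin 4, i ≠ a → i ≠ b → i ≠ c → a ≠ b → a ≠ c → b ≠ c →
    (univ : Finset (Fin 4)).erase i = {a, b, c} := by decide

theorem erase2 : ∀ i a b c : Fin 4, i ≠ a → i ≠ b → i ≠ c → a ≠ b → a ≠ c → b ≠ c →
    ((univ : Finset (Fin 4)).erase i).erase a = {b, c} := by decide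

theorem sum6 (f : Fin 4 → Fin 4 → ℝ) {i a b c : Fin 4} (h1 : i ≠ a) (h2 : i ≠ b) (h3 : i ≠ c)
    (h4 : a ≠ b) (h5 : a ≠ c) (h6 : b ≠ c) :
    ∑ j ∈ univ.erase i, ∑ k ∈ (univ.erase i).erase j, f j k =
      (f a b + f a c) + ((f b a + f b c) + (f c a + f c b)) := by
  rw [show ∑ j ∈ univ.erase i, ∑ k ∈ (univ.erase i).erase j, f j k =
    ∑ j ∈ ({a, b, c} : Finset (Fin 4)), ∑ k ∈ (univ.erase i).erase j, f j k from by
      rw [erase1 i a b c h1 h2 h3 h4 h5 h6]]
  rw [sum_insert (by simp [h4, h5]), sum_insert (by simp [h6]), sum_singleton,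
    erase2 i a b c h1 h2 h3 h4 h5 h6, erase2 i b a c h2 h1 h3 h4.symm h6 h5,
    erase2 i c a b h3 h1 h2 h5.symm h6.symm h4, sum_pair h6, sum_pair h5, sum_pair h4]

section

variable {V : Type*} [DecidableEq V] {q : ℕ} {X Y : Finset V} {N M : Fin 4 → Finset V}

theorem d1_eq (h : Sys q X Y N M) (j : Fin 4) :
    (d1 X N j : ℝ) = (q : ℝ) + 1 + ((q - (N j).card : ℕ) : ℝ) := by
  have h1 : X.filter (fun w => w ∉ N j) = X \ N j := by
    ext w; simp
  have h2 := h.hc j
  have h3 : d1 X N j = q + 1 + (q - (N j).card) := by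
    unfold d1
    rw [h1, card_sdiff_of_subset (h.hN j), h.hX]
    omega
  rw [h3]
  push_cast
  ring

theorem d2_ge (h : Sys q X Y N M) (j k : Fin 4) :
    1 + ((q - (N j).card : ℕ) : ℝ) + ((q - (N k).card : ℕ) : ℝ) ≤ (d2 X N j k : ℝ) := by
  have h1 : X.filter (fun w => w ∉ N j ∧ w ∉ N k) = X \ (N j ∪ N k) := by
    ext w; simp
  have h2 := h.hc j
  have h3 := h.hc k
  have h4 : 1 + (q - (N j).card) + (q - (N k).card) ≤ d2 X N j k := by
    unfold d2
    rw [h1, card_sdiff_of_subset (union_subset (h.hN j) (h.hN k)), h.hX]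
    have h5 := card_union_le (N j) (N k)
    omega
  exact_mod_cast h4

theorem term_le (h : Sys q X Y N M) (j k : Fin 4) :
    1 / ((d1 X N j : ℝ) * d2 X N j k) ≤
      1 / ((q : ℝ) + 1 + ((q - (N j).card : ℕ) : ℝ)) /
        (1 + ((q - (N j).card : ℕ) : ℝ) + ((q - (N k).card : ℕ) : ℝ)) := by
  have h1 := d2_ge h j k
  rw [d1_eq h j, div_div]
  gcongr

end

end P

open P in
/-- the weight of a triangle is at most `pi3` -/
theorem t_P : S_P := by
  intro V _ q X Y N M h i a b c h1 h2 h3 h4 h5 h6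
  unfold pp pi3
  refine mul_le_mul_of_nonneg_left ?_ (by positivity)
  rw [sum6 (fun j k => 1 / ((d1 X N j : ℝ) * d2 X N j k)) h1 h2 h3 h4 h5 h6]
  have k1 := term_le h a b
  have k2 := term_le h a c
  have k3 := term_le h b a
  have k4 := term_le h b c
  have k5 := term_le h c a
  have k6 := term_le h c b
  generalize ((q - (N a).card : ℕ) : ℝ) = x at *
  generalize ((q - (N b).card : ℕ) : ℝ) = y at *
  generalize ((q - (N c).card : ℕ) : ℝ) = z at *
  rw [add_div, add_div, add_div]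
  rw [show (1 : ℝ) + y + x = 1 + x + y by ring] at k3
  rw [show (1 : ℝ) + z + x = 1 + x + z by ring] at k5
  rw [show (1 : ℝ) + z + y = 1 + y + z by ring] at k6
  linarith

end Pool.Agent.N917.K4
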