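import Pool.Agent.N917.K4.Stm

/-!
Project K4 (helper917), part SET: the counting facts for four sets (helper578).
-/

namespace Pool.Agent.N917.K4

open Finset

namespace SET

section

variable {V : Type*} [DecidableEq V]

/-- the class of an element -/
def sig (N : Fin 4 → Finset V) (w : V) : Bool × Bool × Bool × Bool :=
  (decide (w ∈ N 0), decide (w ∈ N 1), decide (w ∈ N 2), decide (w ∈ N 3))

/-- the sizes of the classes -/
def cc (X : Finset V) (N : Fin 4 → Finset V) (s : Bool × Bool × Bool × Bool) : ℕ :=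
  (X.filter (fun w => sig N w = s)).card

lemma cnt (X : Finset V) (N : Fin 4 → Finset V) (P : Bool × Bool × Bool × Bool → Prop)
    [DecidablePred P] (Q : V → Prop) [DecidablePred Q] (h : ∀ w ∈ X, (Q w ↔ P (sig N w))) :
    (X.filter Q).card = ∑ s, if P s then cc X N s else 0 := by
  have h1 : X.filter Q = X.filter (fun w => P (sig N w)) := filter_congr h
  rw [h1, card_eq_sum_card_fiberwise (f := sig N) (t := univ) (fun _ _ => mem_coe.2 (mem_univ _))]
  refine sum_congr rfl fun s _ => ?_
  rw [filter_filter]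
  split_ifs with hs
  · unfold cc
    congr 1
    refine filter_congr fun w _ => ?_
    constructor
    · exact fun h => h.2
    · intro h
      exact ⟨by rw [h]; exact hs, h⟩
  · rw [card_eq_zero, filter_eq_empty_iff]
    rintro w _ ⟨ha, hb⟩
    rw [hb] at ha
    exact hs ha

lemma arith (X : Finset V) (N : Fin 4 → Finset V) (hN : ∀ i, N i ⊆ X) :
    ∃ x0000 x0001 x0010 x0011 x0100 x0101 x0110 x0111 x1000 x1001 x1010 x1011 x1100 x1101 x1110 x1111 : ℕ,
      X.card = x0000 + x0001 + x0010 + x0011 + x0100 + x0101 + x0110 + x0111 + x1000 + x1001 + x1010 + x1011 + x1100 + x1101 + x1110 + x1111 ∧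
      (N 0).card = x1000 + x1001 + x1010 + x1011 + x1100 + x1101 + x1110 + x1111 ∧
      (N 1).card = x0100 + x0101 + x0110 + x0111 + x1100 + x1101 + x1110 + x1111 ∧
      (N 2).card = x0010 + x0011 + x0110 + x0111 + x1010 + x1011 + x1110 + x1111 ∧
      (N 3).card = x0001 + x0011 + x0101 + x0111 + x1001 + x1011 + x1101 + x1111 ∧
      al X N 0 = x0000 + x1000 ∧
      al X N 1 = x0000 + x0100 ∧
      al X N 2 = x0000 + x0010 ∧
      al X N 3 = x0000 + x0001 ∧
      un X N = x0000 ∧
      ((∃ x ∈ N 0, ∀ j, j ≠ 0 → x ∉ N j) → 1 ≤ x1000) ∧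
      ((∃ x ∈ N 1, ∀ j, j ≠ 1 → x ∉ N j) → 1 ≤ x0100) ∧
      ((∃ x ∈ N 2, ∀ j, j ≠ 2 → x ∉ N j) → 1 ≤ x0010) ∧
      ((∃ x ∈ N 3, ∀ j, j ≠ 3 → x ∉ N j) → 1 ≤ x0001) := by
  refine ⟨cc X N (false, false, false, false), cc X N (false, false, false, true), cc X N (false, false, true, false), cc X N (false, false, true, true), cc X N (false, true, false, false), cc X N (false, true, false, true), cc X N (false, true, true, false), cc X N (false, true, true, true), cc X N (true, false, false, false), cc X N (true, false, false, true), cc X N (true, false, true, false), cc X N (true, false, true, true), cc X N (true, true, false, false), cc X N (true, true, false, true), cc X N (true, true, true, false), cc X N (true, true, true, true), ?_, ?_, ?_, ?_, ?_, ?_, ?_, ?_, ?_, ?_, ?_, ?_, ?_, ?_⟩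
  · have := cnt X N (fun _ => True) (fun _ => True) (fun w _ => Iff.rfl)
    rw [filter_true_of_mem (fun _ _ => trivial)] at this
    rw [this]
    simp [Fintype.sum_prod_type]
    ring
  · have := cnt X N (fun s => s.1 = true) (fun w => w ∈ N 0) (fun w _ => by simp [sig])
    rw [filter_mem_eq_inter, inter_eq_right.2 (hN 0)] at this
    rw [this]
    simp [Fintype.sum_prod_type]
    ring
  · have := cnt X N (fun s => s.2.1 = true) (fun w => w ∈ N 1) (fun w _ => by simp [sig])
    rw [filter_mem_eq_inter, inter_eq_right.2 (hN 1)] at this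
    rw [this]
    simp [Fintype.sum_prod_type]
    ring
  · have := cnt X N (fun s => s.2.2.1 = true) (fun w => w ∈ N 2) (fun w _ => by simp [sig])
    rw [filter_mem_eq_inter, inter_eq_right.2 (hN 2)] at this
    rw [this]
    simp [Fintype.sum_prod_type]
    ring
  · have := cnt X N (fun s => s.2.2.2 = true) (fun w => w ∈ N 3) (fun w _ => by simp [sig])
    rw [filter_mem_eq_inter, inter_eq_right.2 (hN 3)] at this
    rw [this]
    simp [Fintype.sum_prod_type]
    ring
  · have := cnt X N (fun s => s.2.1 = false ∧ s.2.2.1 = false ∧ s.2.2.2 = false) (fun w => ∀ j, j ≠ (0 : Fin 4) → w ∉ N j)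
      (fun w _ => by simp [sig, Fin.forall_fin_succ])
    unfold al
    rw [this]
    simp [Fintype.sum_prod_type]
    try ring
  · have := cnt X N (fun s => s.1 = false ∧ s.2.2.1 = false ∧ s.2.2.2 = false) (fun w => ∀ j, j ≠ (1 : Fin 4) → w ∉ N j)
      (fun w _ => by simp [sig, Fin.forall_fin_succ])
    unfold al
    rw [this]
    simp [Fintype.sum_prod_type]
    try ring
  · have := cnt X N (fun s => s.1 = false ∧ s.2.1 = false ∧ s.2.2.2 = false) (fun w => ∀ j, j ≠ (2 : Fin 4) → w ∉ N j)
      (fun w _ => by simp [sig, Fin.forall_fin_succ])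
    unfold al
    rw [this]
    simp [Fintype.sum_prod_type]
    try ring
  · have := cnt X N (fun s => s.1 = false ∧ s.2.1 = false ∧ s.2.2.1 = false) (fun w => ∀ j, j ≠ (3 : Fin 4) → w ∉ N j)
      (fun w _ => by simp [sig, Fin.forall_fin_succ])
    unfold al
    rw [this]
    simp [Fintype.sum_prod_type]
    try ring
  · have := cnt X N (fun s => s.1 = false ∧ s.2.1 = false ∧ s.2.2.1 = false ∧ s.2.2.2 = false)
      (fun w => ∀ j, w ∉ N j) (fun w _ => by simp [sig, Fin.forall_fin_succ])
    unfold un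
    rw [this]
    simp [Fintype.sum_prod_type]
    try ring
  · rintro ⟨x, hx, hx'⟩
    rw [Nat.one_le_iff_ne_zero, ← Nat.pos_iff_ne_zero]
    unfold cc
    rw [card_pos]
    refine ⟨x, mem_filter.2 ⟨hN _ hx, ?_⟩⟩
    simp [Fin.forall_fin_succ] at hx'
    simp [sig, hx, hx']
  · rintro ⟨x, hx, hx'⟩
    rw [Nat.one_le_iff_ne_zero, ← Nat.pos_iff_ne_zero]
    unfold cc
    rw [card_pos]
    refine ⟨x, mem_filter.2 ⟨hN _ hx, ?_⟩⟩
    simp [Fin.forall_fin_succ] at hx'
    simp [sig, hx, hx']
  · rintro ⟨x, hx, hx'⟩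
    rw [Nat.one_le_iff_ne_zero, ← Nat.pos_iff_ne_zero]
    unfold cc
    rw [card_pos]
    refine ⟨x, mem_filter.2 ⟨hN _ hx, ?_⟩⟩
    simp [Fin.forall_fin_succ] at hx'
    simp [sig, hx, hx']
  · rintro ⟨x, hx, hx'⟩
    rw [Nat.one_le_iff_ne_zero, ← Nat.pos_iff_ne_zero]
    unfold cc
    rw [card_pos]
    refine ⟨x, mem_filter.2 ⟨hN _ hx, ?_⟩⟩
    simp [Fin.forall_fin_succ] at hx'
    simp [sig, hx, hx']

lemma forall4 {P : Fin 4 → Prop} (h0 : P 0) (h1 : P 1) (h2 : P 2) (h3 : P 3) : ∀ i, P i := by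
  intro i
  fin_cases i <;> assumption

lemma fA (X : Finset V) (N : Fin 4 → Finset V) (hN : ∀ i, N i ⊆ X) :
    ∀ i, (∃ x ∈ N i, ∀ j, j ≠ i → x ∉ N j) → un X N + 1 ≤ al X N i ∧ 1 ≤ (N i).card := by
  obtain ⟨x0000, x0001, x0010, x0011, x0100, x0101, x0110, x0111, x1000, x1001, x1010, x1011, x1100, x1101, x1110, x1111, xt, xn0, xn1, xn2, xn3, xa0, xa1, xa2, xa3, xu, xk0, xk1, xk2, xk3⟩ :=
    arith X N hN
  refine forall4 ?_ ?_ ?_ ?_
  · intro h; replace xk0 := xk0 h; constructor <;> omega
  · intro h; replace xk1 := xk1 h; constructor <;> omega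
  · intro h; replace xk2 := xk2 h; constructor <;> omega
  · intro h; replace xk3 := xk3 h; constructor <;> omega

lemma fB (X : Finset V) (N : Fin 4 → Finset V) (hN : ∀ i, N i ⊆ X) :
    ∀ i, X.card + (N i).card ≤ al X N i + ((N 0).card + (N 1).card + (N 2).card + (N 3).card) := by
  obtain ⟨x0000, x0001, x0010, x0011, x0100, x0101, x0110, x0111, x1000, x1001, x1010, x1011, x1100, x1101, x1110, x1111, xt, xn0, xn1, xn2, xn3, xa0, xa1, xa2, xa3, xu, xk0, xk1, xk2, xk3⟩ :=
    arith X N hN
  clear xk0 xk1 xk2 xk3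
  refine forall4 ?_ ?_ ?_ ?_ <;> linarith

lemma fC (X : Finset V) (N : Fin 4 → Finset V) (hN : ∀ i, N i ⊆ X) :
    ∀ i, al X N i ≤ un X N + (N i).card := by
  obtain ⟨x0000, x0001, x0010, x0011, x0100, x0101, x0110, x0111, x1000, x1001, x1010, x1011, x1100, x1101, x1110, x1111, xt, xn0, xn1, xn2, xn3, xa0, xa1, xa2, xa3, xu, xk0, xk1, xk2, xk3⟩ :=
    arith X N hN
  clear xk0 xk1 xk2 xk3
  refine forall4 ?_ ?_ ?_ ?_ <;> linarith

lemma fD (X : Finset V) (N : Fin 4 → Finset V) (hN : ∀ i, N i ⊆ X) (h : ∀ i, al X N i = 0) :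
    2 * X.card ≤ (N 0).card + (N 1).card + (N 2).card + (N 3).card := by
  obtain ⟨x0000, x0001, x0010, x0011, x0100, x0101, x0110, x0111, x1000, x1001, x1010, x1011, x1100, x1101, x1110, x1111, xt, xn0, xn1, xn2, xn3, xa0, xa1, xa2, xa3, xu, xk0, xk1, xk2, xk3⟩ :=
    arith X N hN
  clear xk0 xk1 xk2 xk3
  have h0 := h 0
  have h1 := h 1
  have h2 := h 2
  have h3 := h 3
  linarith

lemma fF (X : Finset V) (N : Fin 4 → Finset V) (hN : ∀ i, N i ⊆ X) :
    ∀ i, (∀ j, j ≠ i → al X N j = 0) → al X N i ≤ (N i).card ∧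
      2 * X.card ≤ al X N i + ((N 0).card + (N 1).card + (N 2).card + (N 3).card) := by
  obtain ⟨x0000, x0001, x0010, x0011, x0100, x0101, x0110, x0111, x1000, x1001, x1010, x1011, x1100, x1101, x1110, x1111, xt, xn0, xn1, xn2, xn3, xa0, xa1, xa2, xa3, xu, xk0, xk1, xk2, xk3⟩ :=
    arith X N hN
  clear xk0 xk1 xk2 xk3
  refine forall4 ?_ ?_ ?_ ?_ <;> intro h
  · have h1 := h 1 (by decide)
    have h2 := h 2 (by decide)
    have h3 := h 3 (by decide)
    constructor <;> linarith
  · have h1 := h 0 (by decide)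
    have h2 := h 2 (by decide)
    have h3 := h 3 (by decide)
    constructor <;> linarith
  · have h1 := h 0 (by decide)
    have h2 := h 1 (by decide)
    have h3 := h 3 (by decide)
    constructor <;> linarith
  · have h1 := h 0 (by decide)
    have h2 := h 1 (by decide)
    have h3 := h 2 (by decide)
    constructor <;> linarith

lemma fG (X : Finset V) (N : Fin 4 → Finset V) (hN : ∀ i, N i ⊆ X) :
    ∀ i j k, i ≠ j → k ≠ i → k ≠ j → al X N i = 0 → al X N j = 0 →
      (N 0).card + (N 1).card + (N 2).card + (N 3).card ≤ X.card + (N i).card →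
      (N 0).card + (N 1).card + (N 2).card + (N 3).card ≤ X.card + (N j).card →
      al X N k = (N k).card := by
  obtain ⟨x0000, x0001, x0010, x0011, x0100, x0101, x0110, x0111, x1000, x1001, x1010, x1011, x1100, x1101, x1110, x1111, xt, xn0, xn1, xn2, xn3, xa0, xa1, xa2, xa3, xu, xk0, xk1, xk2, xk3⟩ :=
    arith X N hN
  clear xk0 xk1 xk2 xk3
  refine forall4 ?_ ?_ ?_ ?_ <;> refine forall4 ?_ ?_ ?_ ?_ <;>
    refine forall4 ?_ ?_ ?_ ?_ <;> intro h1 h2 h3 h4 h5 h6 h7 <;>
    first
      | exact absurd rfl h1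
      | exact absurd rfl h2
      | exact absurd rfl h3
      | (apply le_antisymm <;> linarith)

end

end SET

theorem t_SET : S_SET := by
  intro V _ q X Y N M hS e E he hE
  rw [Fin.sum_univ_four] at hE
  have hXq := hS.hX
  have hYq := hS.hY
  have he' : ∀ i, e i + (N i).card = q := fun i => by
    have := he i
    have := hS.hc i
    omega
  have hm : ∀ i, (M i).card ≤ e i := fun i => by
    have := he i
    have := hS.hc i
    omega
  have g0 := he' 0
  have g1 := he' 1
  have g2 := he' 2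
  have g3 := he' 3
  have m0 := hm 0
  have m1 := hm 1
  have m2 := hm 2
  have m3 := hm 3
  refine ⟨fun i => ?_, fun i => ?_, fun i => ?_, fun i => ?_, fun i => ?_, fun h => ?_,
    fun i h => ?_, fun i j k h1 h2 h3 h4 h5 h6 h7 => ?_⟩
  · have := (SET.fA X N hS.hN i (hS.hx i)).2
    have := he' i
    omega
  · exact (SET.fA X N hS.hN i (hS.hx i)).1
  · have := SET.fB X N hS.hN i
    have := he' i
    omega
  · have := SET.fC X N hS.hN i
    have := he' i
    omega
  · have := SET.fB Y M hS.hM i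
    have := hm i
    have h' : (M 0).card + (M 1).card + (M 2).card + (M 3).card + e i ≤ E + (M i).card := by
      revert i
      refine SET.forall4 ?_ ?_ ?_ ?_ <;> intros <;> omega
    omega
  · have := SET.fD Y M hS.hM h
    omega
  · have := SET.fF Y M hS.hM i h
    have := hm i
    omega
  · have hB1 := SET.fB Y M hS.hM i
    have hB2 := SET.fB Y M hS.hM j
    have hsum : ∀ i, (M 0).card + (M 1).card + (M 2).card + (M 3).card + e i ≤
        E + (M i).card := by
      refine SET.forall4 ?_ ?_ ?_ ?_ <;> omega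
    have hs1 := hsum i
    have hs2 := hsum j
    have hG := SET.fG Y M hS.hM i j k h1 h2 h3 h4 h5 (by omega) (by omega)
    rw [hG]
    -- the sizes are exact
    have hk : ∀ i k, k ≠ i → E + (M i).card ≤
        (M 0).card + (M 1).card + (M 2).card + (M 3).card + e i → (M k).card = e k := by
      refine SET.forall4 ?_ ?_ ?_ ?_ <;> refine SET.forall4 ?_ ?_ ?_ ?_ <;> intro h1 h2 <;>
        first
          | exact absurd rfl h1
          | omega
    exact hk i k h2 (by omega)

end Pool.Agent.N917.K4
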