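import Pool.Agent.N917.K4.Stm2

/-!
Project K4 (helper917), part SUM (helper424).
-/

namespace Pool.Agent.N917.K4

open Finset
open Pool.Agent.Results.MP_76b19e_co.ForcedCliques

namespace SUM

variable {V : Type} [DecidableEq V] (G : SimpleGraph V) [DecidableRel G.Adj]

theorem miss_le (X S : Finset V) : (miss G X S).card ≤ ∑ s ∈ S, nn G X s := by
  have : miss G X S = S.biUnion fun s => X.filter (fun w => ¬ G.Adj s w) := by
    ext w
    simp only [mem_miss, mem_biUnion, mem_filter]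
    constructor
    · rintro ⟨h1, s, h2, h3⟩
      exact ⟨s, h2, h1, h3⟩
    · rintro ⟨s, h2, h1, h3⟩
      exact ⟨h1, s, h2, h3⟩
  rw [this]
  exact card_biUnion_le

theorem card_cnb1 (X : Finset V) (a : V) : (cnb G X {a}).card + nn G X a = X.card := by
  have h1 := card_nb G X a
  have h2 : cnb G X {a} = X.filter (fun w => G.Adj a w) := by
    ext w; simp [cnb]
  rw [h2]
  exact h1

theorem card_cnb2 (X : Finset V) {a b : V} (hab : a ≠ b) :
    X.card ≤ (cnb G X {a, b}).card + nn G X a + nn G X b := by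
  have h1 := card_cnb_add_miss G X {a, b}
  have h2 := miss_le G X {a, b}
  rw [sum_pair hab] at h2
  omega

/-- the sum over triangles and ordered pairs of their vertices -/
theorem swap (X : Finset V) (w : V → V → ℝ) :
    ∑ S ∈ cl G X 3, ∑ a ∈ S, ∑ b ∈ S.erase a, w a b =
      ∑ a ∈ X, ∑ b ∈ cnb G X {a}, ∑ _c ∈ cnb G X {a, b}, w a b := by
  classical
  have e1 : ∀ S ∈ cl G X 3, ∑ a ∈ S, ∑ b ∈ S.erase a, w a b =
      ∑ p ∈ S.sigma (fun a => S.erase a), w p.1 p.2 := fun S _ => by rw [Finset.sum_sigma]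
  have e2 : ∀ a ∈ X, ∑ b ∈ cnb G X {a}, ∑ _c ∈ cnb G X {a, b}, w a b =
      ∑ p ∈ (cnb G X {a}).sigma (fun b => cnb G X {a, b}), w a p.1 := fun a _ => by
    rw [Finset.sum_sigma]
  rw [sum_congr rfl e1, sum_congr rfl e2, Finset.sum_sigma', Finset.sum_sigma']
  symm
  refine Finset.sum_bij (fun p _ => ⟨{p.1, p.2.1, p.2.2}, ⟨p.1, p.2.1⟩⟩) ?_ ?_ ?_ ?_
  · rintro ⟨a, b, c⟩ h
    simp only [mem_sigma, mem_cnb, mem_singleton, forall_eq, mem_insert, forall_eq_or_imp] at h
    obtain ⟨ha, ⟨hb, hab⟩, hc, hac, hbc⟩ := h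
    simp only [mem_sigma, mem_cl, mem_erase, mem_insert, mem_singleton, true_or, or_true, and_true,
      true_and]
    refine ⟨⟨?_, ?_⟩, hab.ne'⟩
    · intro x hx
      simp only [mem_insert, mem_singleton] at hx
      rcases hx with rfl | rfl | rfl <;> assumption
    · exact SimpleGraph.is3Clique_triple_iff.2 ⟨hab, hac, hbc⟩
  · rintro ⟨a, b, c⟩ h ⟨a', b', c'⟩ h' he
    simp only [mem_sigma, mem_cnb, mem_singleton, forall_eq, mem_insert, forall_eq_or_imp] at h h'
    obtain ⟨ha, ⟨hb, hab⟩, hc, hac, hbc⟩ := h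
    obtain ⟨ha', ⟨hb', hab'⟩, hc', hac', hbc'⟩ := h'
    simp only [Sigma.mk.injEq, heq_eq_eq] at he
    obtain ⟨h1, h2, h3⟩ := he
    subst h2
    subst h3
    have : c ∈ ({a, b, c'} : Finset V) := by
      rw [← h1]
      simp
    simp only [mem_insert, mem_singleton] at this
    rcases this with h | h | h
    · exact absurd h hac.ne'
    · exact absurd h hbc.ne'
    · rw [h]
  · rintro ⟨S, a, b⟩ h
    simp only [mem_sigma, mem_cl, mem_erase] at h
    obtain ⟨⟨hS, hc⟩, ha, hab, hb⟩ := h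
    have hcard : ((S.erase a).erase b).card = 1 := by
      rw [card_erase_of_mem (mem_erase.2 ⟨hab, hb⟩), card_erase_of_mem ha, hc.2]
    obtain ⟨c, hcc⟩ := card_eq_one.1 hcard
    have hcm : c ∈ (S.erase a).erase b := by rw [hcc]; exact mem_singleton_self c
    simp only [mem_erase] at hcm
    obtain ⟨hcb, hca, hcS⟩ := hcm
    have hSe : S = {a, b, c} := by
      rw [← hcc, insert_erase (mem_erase.2 ⟨hab, hb⟩), insert_erase ha]
    have hAab := hc.1 ha hb (Ne.symm hab)
    have hAac := hc.1 ha hcS (Ne.symm hca)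
    have hAbc := hc.1 hb hcS (Ne.symm hcb)
    refine ⟨⟨a, b, c⟩, ?_, ?_⟩
    · simp only [mem_sigma, mem_cnb, mem_singleton, forall_eq, mem_insert, forall_eq_or_imp]
      exact ⟨hS ha, ⟨hS hb, hAab⟩, hS hcS, hAac, hAbc⟩
    · simp only [hSe]
  · rintro ⟨a, b, c⟩ h
    rfl

end SUM

theorem t_SUM : S_SUM := by
  classical
  intro V _ G _ q X hX hn
  have e1 : ∑ S ∈ cl G X 3, tw G q X S = (q : ℝ) ^ 2 / (2 * q + 1) *
      ∑ S ∈ cl G X 3, ∑ a ∈ S, ∑ b ∈ S.erase a,
        1 / (((cnb G X {a}).card : ℝ) * (cnb G X {a, b}).card) := by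
    rw [mul_sum]
    rfl
  rw [e1, SUM.swap G X fun a b => 1 / (((cnb G X {a}).card : ℝ) * (cnb G X {a, b}).card)]
  have e2 : ∀ a ∈ X, ∑ b ∈ cnb G X {a}, ∑ _c ∈ cnb G X {a, b},
      1 / (((cnb G X {a}).card : ℝ) * (cnb G X {a, b}).card) = 1 := by
    intro a ha
    have h1 := SUM.card_cnb1 G X a
    have h2 := hn a ha
    have h3 : ((cnb G X {a}).card : ℝ) ≠ 0 := by
      have : (cnb G X {a}).card ≠ 0 := by omega
      exact_mod_cast this
    have e3 : ∀ b ∈ cnb G X {a}, ∑ _c ∈ cnb G X {a, b},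
        1 / (((cnb G X {a}).card : ℝ) * (cnb G X {a, b}).card) = 1 / ((cnb G X {a}).card : ℝ) := by
      intro b hb
      rw [mem_cnb] at hb
      have hab : G.Adj a b := hb.2 a (mem_singleton_self a)
      have h4 := SUM.card_cnb2 G X hab.ne
      have h5 := hn b hb.1
      have h6 : ((cnb G X {a, b}).card : ℝ) ≠ 0 := by
        have : (cnb G X {a, b}).card ≠ 0 := by omega
        exact_mod_cast this
      rw [sum_const, nsmul_eq_mul]
      field_simp
    rw [sum_congr rfl e3, sum_const, nsmul_eq_mul]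
    field_simp
  rw [sum_congr rfl e2, sum_const, nsmul_eq_mul, hX]
  have : (2 * (q : ℝ) + 1) ≠ 0 := by positivity
  push_cast
  field_simp

end Pool.Agent.N917.K4
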