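import Pool.Agent.N917.K4.Stm

/-!
Project K4 (helper917), graph level statements.
-/

namespace Pool.Agent.N917.K4

open Finset
open Pool.Agent.Results.MP_76b19e_co.ForcedCliques (nn cnb cl)

section graph

variable {V : Type} [DecidableEq V]

/-- the weight of a triangle `S` of `X` -/
noncomputable def tw (G : SimpleGraph V) [DecidableRel G.Adj] (q : ℕ) (X S : Finset V) : ℝ :=
  (q : ℝ) ^ 2 / (2 * q + 1) *
    ∑ a ∈ S, ∑ b ∈ S.erase a, 1 / (((cnb G X {a}).card : ℝ) * (cnb G X {a, b}).card)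

end graph

def S_SUM : Prop := ∀ (V : Type) [DecidableEq V] (G : SimpleGraph V) [DecidableRel G.Adj]
  (q : ℕ) (X : Finset V), X.card = 2 * q + 1 → (∀ x ∈ X, nn G X x ≤ q) →
  ∑ S ∈ cl G X 3, tw G q X S = (q : ℝ) ^ 2

def S_MOVE : Prop := ∀ (V : Type) [DecidableEq V] (G : SimpleGraph V) [DecidableRel G.Adj]
  (X : Finset V) (F : Finset V → ℝ),
  ∑ S ∈ (cl G X 3).filter (fun S => (cnb G X S).card ≠ 0), F S =
    ∑ K ∈ cl G X 4, ∑ x ∈ K, F (K.erase x) / (cnb G X (K.erase x)).card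

def S_CNT : Prop := ∀ (V : Type) [DecidableEq V] (G : SimpleGraph V) [DecidableRel G.Adj]
  (X Y : Finset V), Disjoint X Y →
  ∑ S ∈ cl G X 3, (cnb G Y S).card + (cl G X 4).card ≤ (cl G (X ∪ Y) 4).card

def S_MAX : Prop := ∀ (V : Type) [DecidableEq V] (G : SimpleGraph V) [DecidableRel G.Adj]
  (q : ℕ) (X Y : Finset V), Disjoint X Y → X.card = 2 * q + 1 → Y.card = q →
  (∀ x ∈ X, nn G (X ∪ Y) x ≤ q) → ∀ S ∈ cl G X 3, (cnb G X S).card = 0 →
  tw G q X S ≤ (cnb G Y S).card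

def S_LOCG : Prop := ∀ (V : Type) [DecidableEq V] (G : SimpleGraph V) [DecidableRel G.Adj]
  (q : ℕ) (X Y : Finset V), 2 ≤ q → Disjoint X Y → X.card = 2 * q + 1 → Y.card = q →
  (∀ x ∈ X, nn G (X ∪ Y) x ≤ q) → ∀ K ∈ cl G X 4,
  ∑ x ∈ K, (tw G q X (K.erase x) - (cnb G Y (K.erase x)).card) /
    (cnb G X (K.erase x)).card ≤ 1

def S_PURE : Prop := ∀ (V : Type) [DecidableEq V] (G : SimpleGraph V) [DecidableRel G.Adj]
  (q : ℕ) (X Y : Finset V), 1 ≤ q → Disjoint X Y → X.card = 2 * q + 1 → Y.card = q →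
  (∀ x ∈ X, nn G (X ∪ Y) x ≤ q) → q ^ 2 ≤ (cl G (X ∪ Y) 4).card

end Pool.Agent.N917.K4
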